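import Mathlib

/-! Distance to the nearest integer, and windows of positions at which multiples of good
denominators are all close to integers. -/

namespace Pool.Agent.V7H27.LC

open Real

/-- The distance of a real number to the nearest integer. -/
noncomputable def nd (x : ℝ) : ℝ := |x - round x|

lemma nd_le (x : ℝ) (m : ℤ) : nd x ≤ |x - m| := round_le x m

lemma nd_nonneg (x : ℝ) : 0 ≤ nd x := abs_nonneg _

lemma nd_le_half (x : ℝ) : nd x ≤ 1 / 2 := abs_sub_round x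

lemma nd_sub_le (x y : ℝ) : nd (x - y) ≤ nd x + nd y := by
  have h := nd_le (x - y) (round x - round y)
  have h2 : |x - y - ((round x - round y : ℤ) : ℝ)| ≤ |x - round x| + |y - round y| := by
    push_cast
    have : x - y - ((round x : ℝ) - round y) = (x - round x) - (y - round y) := by ring
    rw [this]
    exact abs_sub _ _
  exact h.trans h2

lemma nd_le_add_abs (x y : ℝ) : nd x ≤ nd y + |x - y| := by
  have h := nd_le x (round y)
  have h2 : |x - (round y : ℝ)| ≤ |y - round y| + |x - y| := by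
    have : x - (round y : ℝ) = (y - round y) + (x - y) := by ring
    rw [this]
    exact abs_add_le _ _
  exact h.trans h2

lemma continuous_nd : Continuous nd := by
  have : LipschitzWith 1 nd := LipschitzWith.of_le_add (fun x y => by
    rw [Real.dist_eq]; exact nd_le_add_abs x y)
  exact this.continuous

lemma nd_add_int (x : ℝ) (m : ℤ) : nd (x + m) = nd x := by
  unfold nd
  rw [round_add_intCast]
  push_cast
  congr 1
  ring

/-- If `t, b t, …, b^k t` are all at distance less than `1/(b+1)` from the integers, then `t` is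
very close to an integer. -/
lemma chain {b : ℕ} (hb : 2 ≤ b) (t : ℝ) (k : ℕ)
    (h : ∀ i ≤ k, nd (t * (b : ℝ) ^ i) < 1 / ((b : ℝ) + 1)) :
    nd t * (b : ℝ) ^ k < 1 / ((b : ℝ) + 1) := by
  have hb0 : (0 : ℝ) < b := by positivity
  induction k with
  | zero => simpa using h 0 le_rfl
  | succ k ih =>
    have ih' := ih (fun i hi => h i (by omega))
    have hk := h (k + 1) le_rfl
    set N : ℤ := round t with hN
    have e1 : |t * (b : ℝ) ^ (k + 1) - (N * (b : ℤ) ^ (k + 1) : ℤ)| = nd t * (b : ℝ) ^ (k + 1) := by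
      unfold nd
      push_cast
      rw [← sub_mul, abs_mul, abs_of_pos (pow_pos hb0 _)]
    set K : ℤ := round (t * (b : ℝ) ^ (k + 1)) with hK
    have h1 : nd t * (b : ℝ) ^ (k + 1) < b / ((b : ℝ) + 1) := by
      rw [pow_succ, ← mul_assoc]
      calc nd t * (b : ℝ) ^ k * b < 1 / ((b : ℝ) + 1) * b := by
            exact mul_lt_mul_of_pos_right ih' hb0
        _ = b / ((b : ℝ) + 1) := by ring
    have h2 : |((K - N * (b : ℤ) ^ (k + 1) : ℤ) : ℝ)| < 1 := by
      have h3 : ((K - N * (b : ℤ) ^ (k + 1) : ℤ) : ℝ)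
          = (t * (b : ℝ) ^ (k + 1) - (N * (b : ℤ) ^ (k + 1) : ℤ)) - (t * (b : ℝ) ^ (k + 1) - K) := by
        push_cast; ring
      rw [h3]
      calc _ ≤ |t * (b : ℝ) ^ (k + 1) - (N * (b : ℤ) ^ (k + 1) : ℤ)|
              + |t * (b : ℝ) ^ (k + 1) - K| := abs_sub _ _
        _ < b / ((b : ℝ) + 1) + 1 / ((b : ℝ) + 1) := by
            rw [e1]
            exact add_lt_add h1 hk
        _ = 1 := by field_simp
    have h4 : K - N * (b : ℤ) ^ (k + 1) = 0 := by
      have : |K - N * (b : ℤ) ^ (k + 1)| < 1 := by exact_mod_cast h2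
      exact abs_eq_zero.1 (by have := abs_nonneg (K - N * (b : ℤ) ^ (k + 1)); omega)
    have h5 : K = N * (b : ℤ) ^ (k + 1) := by omega
    rw [← e1, ← h5]
    exact hk

/-- The key lemma: in a window of positions `(J - 3l, J - l]` the multiples `z v / b^j` and
`z w / b^j` of two independent good denominators of `α` cannot all be close to integers. -/
lemma no_free_window {b : ℕ} (hb : 2 ≤ b) {α z A : ℝ} {v w v' w' : ℤ} {J l : ℕ}
    (hA : 1 ≤ A) (hJ : 3 * l ≤ J) (hl1 : 1 ≤ l) (hl : 12 * A ^ 6 < (b : ℝ) ^ l)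
    (hv1 : (b : ℝ) ^ J / A ≤ v) (hv2 : (v : ℝ) ≤ A * (b : ℝ) ^ J)
    (hw1 : 0 ≤ (w : ℝ)) (hw2 : (w : ℝ) ≤ A * (b : ℝ) ^ J)
    (hz1 : 1 / A ≤ |z| * v / (b : ℝ) ^ J) (hz2 : |z| * v / (b : ℝ) ^ J ≤ A)
    (hεv : |v * α - v'| ≤ A / (b : ℝ) ^ J) (hεw : |w * α - w'| ≤ A / (b : ℝ) ^ J)
    (hD : v * w' - w * v' ≠ 0)
    (hψ : ∀ X : ℤ, X ≠ 0 → |(X : ℝ)| ≤ 2 * A * (b : ℝ) ^ J → 1 / A ≤ |(X : ℝ)| * nd (X * α))
    (hfree : ∀ j, J < j + 3 * l → j + l ≤ J →
      nd (z * v / (b : ℝ) ^ j) < 1 / ((b : ℝ) + 1) ∧ nd (z * w / (b : ℝ) ^ j) < 1 / ((b : ℝ) + 1)) :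
    False := by
  have hb0 : (0 : ℝ) < b := by positivity
  have hb1 : (2 : ℝ) ≤ b := by exact_mod_cast hb
  set B : ℝ := (b : ℝ) ^ J with hB
  have hBpos : 0 < B := pow_pos hb0 _
  have hApos : 0 < A := by linarith
  set β : ℝ := (b : ℝ) ^ l with hβ
  have hβpos : 0 < β := pow_pos hb0 _
  have hvpos : (0 : ℝ) < v := lt_of_lt_of_le (by positivity) hv1
  -- the position `j2`
  obtain ⟨j2, hj2⟩ : ∃ j2, j2 + l = J := ⟨J - l, by omega⟩
  have hBj : B = (b : ℝ) ^ j2 * β := by rw [hB, hβ, ← pow_add, hj2]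
  have hsplit : ∀ y : ℝ, ∀ i ≤ 2 * l - 1, y / (b : ℝ) ^ j2 * (b : ℝ) ^ i = y / (b : ℝ) ^ (j2 - i) := by
    intro y i hi
    have h1 : (b : ℝ) ^ j2 = (b : ℝ) ^ (j2 - i) * (b : ℝ) ^ i := by
      rw [← pow_add]; congr 1; omega
    rw [h1]
    field_simp
  have hN : nd (z * v / (b : ℝ) ^ j2) * (b : ℝ) ^ (2 * l - 1) < 1 / ((b : ℝ) + 1) := by
    apply chain hb
    intro i hi
    rw [hsplit _ i hi]
    exact (hfree (j2 - i) (by omega) (by omega)).1
  have hM : nd (z * w / (b : ℝ) ^ j2) * (b : ℝ) ^ (2 * l - 1) < 1 / ((b : ℝ) + 1) := by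
    apply chain hb
    intro i hi
    rw [hsplit _ i hi]
    exact (hfree (j2 - i) (by omega) (by omega)).2
  have hββ : (b : ℝ) ^ (2 * l - 1) * b = β ^ 2 := by
    rw [← pow_succ, hβ, ← pow_mul]; congr 1; omega
  have key : ∀ r : ℝ, 0 ≤ r → r * (b : ℝ) ^ (2 * l - 1) < 1 / ((b : ℝ) + 1) → r ≤ 1 / β ^ 2 := by
    intro r hr h
    rw [le_div_iff₀ (by positivity), ← hββ, ← mul_assoc]
    have : r * (b : ℝ) ^ (2 * l - 1) * b ≤ 1 / ((b : ℝ) + 1) * b := by
      exact mul_le_mul_of_nonneg_right h.le hb0.le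
    refine this.trans ?_
    rw [div_mul_eq_mul_div, div_le_one (by positivity)]
    linarith
  set N : ℤ := round (z * v / (b : ℝ) ^ j2) with hNdef
  set M : ℤ := round (z * w / (b : ℝ) ^ j2) with hMdef
  have he : |z * v / (b : ℝ) ^ j2 - N| ≤ 1 / β ^ 2 := key _ (abs_nonneg _) hN
  have hf : |z * w / (b : ℝ) ^ j2 - M| ≤ 1 / β ^ 2 := key _ (abs_nonneg _) hM
  set e : ℝ := z * v / (b : ℝ) ^ j2 - N with hedef
  set f : ℝ := z * w / (b : ℝ) ^ j2 - M with hfdef
  have hA6 : (1 : ℝ) ≤ A ^ 6 := one_le_pow₀ hA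
  have hβ12 : 12 < β := lt_of_le_of_lt (by linarith) hl
  have hAA6 : A ≤ A ^ 6 := by
    calc A = A ^ 1 := (pow_one A).symm
      _ ≤ A ^ 6 := pow_le_pow_right₀ hA (by norm_num)
  have hβA : 12 * A < β := lt_of_le_of_lt (by linarith) hl
  have h1β : 1 / β ^ 2 ≤ 1 := by
    rw [div_le_one (by positivity)]
    nlinarith
  -- size of N
  have hNval : |z * v / (b : ℝ) ^ j2| = |z| * v / B * β := by
    rw [abs_div, abs_mul, abs_of_pos hvpos, abs_of_pos (pow_pos hb0 j2), hBj]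
    field_simp
  have hNub : |(N : ℝ)| ≤ 2 * A * β := by
    have h1 : (N : ℝ) = z * v / (b : ℝ) ^ j2 - e := by rw [hedef]; ring
    rw [h1]
    calc _ ≤ |z * v / (b : ℝ) ^ j2| + |e| := abs_sub _ _
      _ ≤ A * β + 1 := by
          rw [hNval]
          exact add_le_add (mul_le_mul_of_nonneg_right hz2 hβpos.le) (he.trans h1β)
      _ ≤ 2 * A * β := by nlinarith
  have hN0 : N ≠ 0 := by
    intro h0
    have h1 : e = z * v / (b : ℝ) ^ j2 := by rw [hedef, h0]; simp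
    have h2 : 1 / A * β ≤ |e| := by
      rw [h1, hNval]
      exact mul_le_mul_of_nonneg_right hz1 hβpos.le
    have h3 : 1 / A * β ≤ 1 := h2.trans (he.trans h1β)
    rw [one_div, inv_mul_le_iff₀ hApos] at h3
    linarith
  -- the determinant
  set D : ℤ := v * w' - w * v' with hDdef
  have hDub : |(D : ℝ)| ≤ 2 * A ^ 2 := by
    have h1 : (D : ℝ) = w * (v * α - v') - v * (w * α - w') := by
      rw [hDdef]; push_cast; ring
    rw [h1]
    calc _ ≤ |w * (v * α - v')| + |v * (w * α - w')| := abs_sub _ _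
      _ ≤ (A * B) * (A / B) + (A * B) * (A / B) := by
          rw [abs_mul, abs_mul, abs_of_nonneg hw1, abs_of_pos hvpos]
          exact add_le_add (mul_le_mul hw2 hεv (abs_nonneg _) (by positivity))
            (mul_le_mul hv2 hεw (abs_nonneg _) (by positivity))
      _ = 2 * A ^ 2 := by field_simp; ring
  set X : ℤ := w * N - v * M with hXdef
  set Y : ℤ := w' * N - v' * M with hYdef
  have hXub : |(X : ℝ)| ≤ 2 * A * B / β ^ 2 := by
    have h1 : (X : ℝ) = v * f - w * e := by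
      rw [hXdef, hedef, hfdef]; push_cast; ring
    rw [h1]
    calc _ ≤ |v * f| + |w * e| := abs_sub _ _
      _ ≤ (A * B) * (1 / β ^ 2) + (A * B) * (1 / β ^ 2) := by
          rw [abs_mul, abs_mul, abs_of_nonneg hw1, abs_of_pos hvpos]
          exact add_le_add (mul_le_mul hv2 hf (abs_nonneg _) (by positivity))
            (mul_le_mul hw2 he (abs_nonneg _) (by positivity))
      _ = 2 * A * B / β ^ 2 := by ring
  have hND : (N : ℝ) * D = v * (Y - α * X) + (v * α - v') * X := by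
    have : N * D = v * Y - v' * X := by
      rw [hDdef, hXdef, hYdef]; ring
    have h2 : (N : ℝ) * D = v * Y - v' * X := by exact_mod_cast this
    rw [h2]; ring
  have hNDub : |(N : ℝ) * D| ≤ 4 * A ^ 3 * β := by
    rw [abs_mul]
    calc _ ≤ (2 * A * β) * (2 * A ^ 2) := mul_le_mul hNub hDub (abs_nonneg _) (by positivity)
      _ = 4 * A ^ 3 * β := by ring
  have hBβ : β ^ 3 ≤ B := by
    rw [hβ, hB, ← pow_mul]
    exact pow_le_pow_right₀ (by linarith) (by omega)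
  by_cases hX : X = 0
  · -- then `v` divides `N D`
    have h1 : (N : ℝ) * D = v * Y := by rw [hND, hX]; simp
    have hY0 : Y ≠ 0 := by
      intro h0
      have : N * D = 0 := by
        have h2 : (N : ℝ) * D = 0 := by rw [h1, h0]; simp
        exact_mod_cast h2
      rcases mul_eq_zero.1 this with h | h
      · exact hN0 h
      · exact hD h
    have hY1 : (1 : ℝ) ≤ |(Y : ℝ)| := by
      have : (1 : ℤ) ≤ |Y| := Int.one_le_abs hY0
      exact_mod_cast this
    have h2 : (v : ℝ) ≤ |(N : ℝ) * D| := by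
      rw [h1, abs_mul, abs_of_pos hvpos]
      exact le_mul_of_one_le_right hvpos.le hY1
    have h3 : B / A ≤ 4 * A ^ 3 * β := hv1.trans (h2.trans hNDub)
    rw [div_le_iff₀ hApos] at h3
    -- B ≤ 4 A^4 β < β^3
    have h4 : β ^ 3 ≤ 4 * A ^ 4 * β := by
      refine hBβ.trans (h3.trans (le_of_eq ?_))
      ring
    have hA4 : A ^ 4 ≤ A ^ 6 := pow_le_pow_right₀ hA (by norm_num)
    have h5 : 4 * A ^ 4 < β := by linarith
    have h6 : 4 * A ^ 4 * β ≤ β * β := mul_le_mul_of_nonneg_right h5.le hβpos.le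
    have h7 : β * β * β ≤ β * β * 1 := by
      calc β * β * β = β ^ 3 := by ring
        _ ≤ 4 * A ^ 4 * β := h4
        _ ≤ β * β := h6
        _ = β * β * 1 := by ring
    have h8 := le_of_mul_le_mul_left h7 (mul_pos hβpos hβpos)
    linarith
  · have hX1 : (1 : ℝ) ≤ |(X : ℝ)| := by
      have : (1 : ℤ) ≤ |X| := Int.one_le_abs hX
      exact_mod_cast this
    have hXpos : 0 < |(X : ℝ)| := by linarith
    have hXB : |(X : ℝ)| ≤ 2 * A * B := by
      refine hXub.trans ?_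
      rw [div_le_iff₀ (by positivity)]
      have : 1 ≤ β ^ 2 := by nlinarith
      nlinarith [mul_pos hApos hBpos]
    have h1 : 1 / A ≤ |(X : ℝ)| * nd (X * α) := by
      exact hψ X hX hXB
    have h2 : nd (X * α) ≤ |(Y : ℝ) - α * X| := by
      have := nd_le (X * α) Y
      rw [abs_sub_comm, mul_comm (α) (X : ℝ)]
      exact this
    have h3 : (v : ℝ) * |(Y : ℝ) - α * X| ≤ |(N : ℝ) * D| + A / B * |(X : ℝ)| := by
      have h4 : (v : ℝ) * (Y - α * X) = N * D - (v * α - v') * X := by rw [hND]; ring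
      calc (v : ℝ) * |(Y : ℝ) - α * X| = |(v : ℝ) * (Y - α * X)| := by
            rw [abs_mul, abs_of_pos hvpos]
        _ = |(N : ℝ) * D - (v * α - v') * X| := by rw [h4]
        _ ≤ |(N : ℝ) * D| + |(v * α - v') * X| := abs_sub _ _
        _ ≤ |(N : ℝ) * D| + A / B * |(X : ℝ)| := by
            rw [abs_mul (v * α - v' : ℝ)]
            gcongr
    have h5 : A / B * |(X : ℝ)| ≤ 2 * A ^ 2 := by
      calc A / B * |(X : ℝ)| ≤ A / B * (2 * A * B) := by gcongr
        _ = 2 * A ^ 2 := by field_simp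
    have h6 : (v : ℝ) * |(Y : ℝ) - α * X| ≤ 6 * A ^ 3 * β := by
      have hA23 : A ^ 2 ≤ A ^ 3 := pow_le_pow_right₀ hA (by norm_num)
      have : A ^ 3 ≤ A ^ 3 * β := le_mul_of_one_le_right (by positivity) (by linarith)
      linarith
    -- multiply by |X|
    have h7 : B / A ^ 2 ≤ |(X : ℝ)| * (6 * A ^ 3 * β) := by
      calc B / A ^ 2 = (B / A) * (1 / A) := by field_simp
        _ ≤ v * (|(X : ℝ)| * nd (X * α)) := by gcongr
        _ ≤ v * (|(X : ℝ)| * |(Y : ℝ) - α * X|) := by gcongr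
        _ = |(X : ℝ)| * ((v : ℝ) * |(Y : ℝ) - α * X|) := by ring
        _ ≤ |(X : ℝ)| * (6 * A ^ 3 * β) := by gcongr
    have h8 : B / A ^ 2 ≤ (2 * A * B / β ^ 2) * (6 * A ^ 3 * β) := by
      refine h7.trans ?_
      gcongr
    have h9 : β ≤ 12 * A ^ 6 := by
      have h10 : (2 * A * B / β ^ 2) * (6 * A ^ 3 * β) = 12 * A ^ 4 * B / β := by
        field_simp; ring
      rw [h10, div_le_div_iff₀ (by positivity) hβpos] at h8
      have h11 : B * β ≤ B * (12 * A ^ 6) := by nlinarith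
      exact le_of_mul_le_mul_left h11 hBpos
    linarith

/-- The positions in `S` at which `z x / b^j` is not close to an integer. -/
noncomputable def badset (b : ℕ) (z : ℝ) (x : ℤ) (S : Finset ℕ) : Finset ℕ :=
  S.filter (fun j => 1 / (2 * ((b : ℝ) + 1)) ≤ nd (z * x / (b : ℝ) ^ j))

/-- Of three good denominators one has at least `T` bad positions. -/
lemma three_bad {b : ℕ} (hb : 2 ≤ b) {α z A : ℝ} {x y : Fin 3 → ℤ} {J l0 T L : ℕ}
    (hA : 1 ≤ A) (hl1 : 1 ≤ l0) (hL : L = 3 ^ (3 * T) * l0) (hJ : L ≤ J)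
    (hl : 12 * A ^ 6 < (b : ℝ) ^ l0)
    (hv1 : (b : ℝ) ^ J / A ≤ (x 1 - x 0 : ℤ)) (hv2 : ((x 1 - x 0 : ℤ) : ℝ) ≤ A * (b : ℝ) ^ J)
    (hw1 : 0 ≤ ((x 2 - x 0 : ℤ) : ℝ)) (hw2 : ((x 2 - x 0 : ℤ) : ℝ) ≤ A * (b : ℝ) ^ J)
    (hz1 : 1 / A ≤ |z| * (x 1 - x 0 : ℤ) / (b : ℝ) ^ J)
    (hz2 : |z| * (x 1 - x 0 : ℤ) / (b : ℝ) ^ J ≤ A)
    (hεv : |(x 1 - x 0 : ℤ) * α - (y 1 - y 0 : ℤ)| ≤ A / (b : ℝ) ^ J)
    (hεw : |(x 2 - x 0 : ℤ) * α - (y 2 - y 0 : ℤ)| ≤ A / (b : ℝ) ^ J)
    (hD : (x 1 - x 0) * (y 2 - y 0) - (x 2 - x 0) * (y 1 - y 0) ≠ 0)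
    (hψ : ∀ X : ℤ, X ≠ 0 → |(X : ℝ)| ≤ 2 * A * (b : ℝ) ^ J → 1 / A ≤ |(X : ℝ)| * nd (X * α)) :
    ∃ k : Fin 3, T ≤ (badset b z (x k) (Finset.Ioc (J - L) J)).card := by
  have hb0 : (0 : ℝ) < b := by positivity
  -- in each window there is a bad position
  have hwin : ∀ t : ℕ, ∃ jk : ℕ × Fin 3, t < 3 * T →
      J < jk.1 + 3 ^ (t + 1) * l0 ∧ jk.1 + 3 ^ t * l0 ≤ J ∧
        1 / (2 * ((b : ℝ) + 1)) ≤ nd (z * x jk.2 / (b : ℝ) ^ jk.1) := by
    intro t
    by_cases ht : t < 3 * T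
    swap
    · exact ⟨(0, 0), fun h => absurd h ht⟩
    by_contra hcon
    push Not at hcon
    have hcon' : ∀ (j : ℕ) (k : Fin 3), J < j + 3 ^ (t + 1) * l0 → j + 3 ^ t * l0 ≤ J →
        nd (z * x k / (b : ℝ) ^ j) < 1 / (2 * ((b : ℝ) + 1)) := by
      intro j k h1 h2
      exact (hcon (j, k)).2 h1 h2
    have h3 : 3 ^ (t + 1) * l0 ≤ L := by
      rw [hL]
      exact Nat.mul_le_mul_right _ (Nat.pow_le_pow_right (by norm_num) (by omega))
    have hpos : 1 ≤ 3 ^ t := Nat.one_le_pow _ _ (by norm_num)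
    have h33 : 3 * (3 ^ t * l0) = 3 ^ (t + 1) * l0 := by rw [pow_succ]; ring
    refine no_free_window (l := 3 ^ t * l0) (J := J) (α := α) (z := z) (A := A)
      (v := x 1 - x 0) (w := x 2 - x 0) (v' := y 1 - y 0) (w' := y 2 - y 0) hb hA ?_ ?_ ?_
      hv1 hv2 hw1 hw2 hz1 hz2 hεv hεw hD hψ ?_
    · rw [h33]; omega
    · exact Nat.mul_pos hpos hl1
    · refine lt_of_lt_of_le hl (pow_le_pow_right₀ (by exact_mod_cast (by omega : 1 ≤ b)) ?_)
      exact Nat.le_mul_of_pos_left _ hpos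
    · intro j h1 h2
      rw [h33] at h1
      have e0 := hcon' j 0 h1 h2
      have e1 := hcon' j 1 h1 h2
      have e2 := hcon' j 2 h1 h2
      have hsum : 1 / (2 * ((b : ℝ) + 1)) + 1 / (2 * ((b : ℝ) + 1)) = 1 / ((b : ℝ) + 1) := by
        field_simp; norm_num
      constructor
      · have h4 : z * ((x 1 - x 0 : ℤ) : ℝ) / (b : ℝ) ^ j
            = z * x 1 / (b : ℝ) ^ j - z * x 0 / (b : ℝ) ^ j := by push_cast; ring
        rw [h4, ← hsum]
        exact lt_of_le_of_lt (nd_sub_le _ _) (add_lt_add e1 e0)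
      · have h4 : z * ((x 2 - x 0 : ℤ) : ℝ) / (b : ℝ) ^ j
            = z * x 2 / (b : ℝ) ^ j - z * x 0 / (b : ℝ) ^ j := by push_cast; ring
        rw [h4, ← hsum]
        exact lt_of_le_of_lt (nd_sub_le _ _) (add_lt_add e2 e0)
  choose g hg using hwin
  obtain ⟨k, -, hk⟩ := Finset.exists_le_card_fiber_of_mul_le_card_of_maps_to
    (s := Finset.range (3 * T)) (t := (Finset.univ : Finset (Fin 3))) (f := fun t => (g t).2)
    (n := T) (fun _ _ => Finset.mem_univ _) ⟨0, Finset.mem_univ _⟩ (by simp)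
  refine ⟨k, hk.trans ?_⟩
  apply Finset.card_le_card_of_injOn (fun t => (g t).1)
  · intro t ht
    simp only [Finset.coe_filter, Finset.mem_range, Set.mem_ofPred_eq] at ht
    obtain ⟨ht1, ht2⟩ := ht
    obtain ⟨h1, h2, h3⟩ := hg t ht1
    have h4 : 3 ^ (t + 1) * l0 ≤ L := by
      rw [hL]
      exact Nat.mul_le_mul_right _ (Nat.pow_le_pow_right (by norm_num) (by omega))
    simp only [badset, Finset.coe_filter, Finset.mem_Ioc, Set.mem_ofPred_eq]
    refine ⟨⟨by omega, by omega⟩, ?_⟩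
    rw [← ht2]
    exact h3
  · intro t ht t' ht' heq
    simp only [Finset.coe_filter, Finset.mem_range, Set.mem_ofPred_eq] at ht ht'
    have key : ∀ s s' : ℕ, s < 3 * T → s' < 3 * T → s < s' → (g s').1 < (g s).1 := by
      intro s s' hs hs' hss
      obtain ⟨h1, -, -⟩ := hg s hs
      obtain ⟨-, h2, -⟩ := hg s' hs'
      have h5 : 3 ^ (s + 1) * l0 ≤ 3 ^ s' * l0 :=
        Nat.mul_le_mul_right _ (Nat.pow_le_pow_right (by norm_num) (by omega))
      omega
    rcases lt_trichotomy t t' with h | h | h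
    · have := key t t' ht.1 ht'.1 h
      simp only at heq
      omega
    · exact h
    · have := key t' t ht'.1 ht.1 h
      simp only at heq
      omega

end Pool.Agent.V7H27.LC
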