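import Mathlib
import Pool.Agent.V7H27.LC.Dioph

/-! Random variables with small Fourier coefficients hit every short arc. -/

namespace Pool.Agent.V7H27.LC

open Real MeasureTheory ProbabilityTheory

/-- `exp (2 π i t)`. -/
noncomputable def ex (t : ℝ) : ℂ := Complex.exp (Complex.I * ((2 * π * t : ℝ) : ℂ))

lemma ex_zero : ex 0 = 1 := by simp [ex]

lemma ex_add (s t : ℝ) : ex (s + t) = ex s * ex t := by
  unfold ex
  rw [← Complex.exp_add]
  congr 1
  push_cast
  ring

lemma norm_ex (t : ℝ) : ‖ex t‖ = 1 := by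
  unfold ex
  exact Complex.norm_exp_I_mul_ofReal _

lemma conj_ex (t : ℝ) : (starRingEnd ℂ) (ex t) = ex (-t) := by
  unfold ex
  rw [← Complex.exp_conj]
  congr 1
  rw [map_mul, Complex.conj_I, Complex.conj_ofReal]
  push_cast
  ring

lemma ex_int (m : ℤ) : ex m = 1 := by
  unfold ex
  rw [Complex.exp_eq_one_iff]
  exact ⟨m, by push_cast; ring⟩

lemma continuous_ex : Continuous ex := by
  unfold ex
  fun_prop

lemma measurable_ex : Measurable ex := continuous_ex.measurable

lemma ex_nat_mul (k : ℕ) (x : ℝ) : ex (k * x) = ex x ^ k := by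
  induction k with
  | zero => simp [ex_zero]
  | succ k ih =>
    rw [pow_succ, ← ih, ← ex_add]
    congr 1
    push_cast
    ring

lemma four_nd_le (x : ℝ) : 4 * nd x ≤ ‖ex x - 1‖ := by
  have h1 : ex x = ex (x - round x) := by
    have : x = (x - round x) + (round x : ℤ) := by ring
    conv_lhs => rw [this]
    rw [ex_add, ex_int, mul_one]
  rw [h1]
  unfold ex
  rw [Complex.norm_exp_I_mul_ofReal_sub_one, Real.norm_eq_abs, abs_mul]
  have h2 : 2 * π * (x - round x) / 2 = π * (x - round x) := by ring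
  rw [h2]
  have h3 : |π * (x - round x)| ≤ π / 2 := by
    rw [abs_mul, abs_of_pos Real.pi_pos]
    have := abs_sub_round x
    nlinarith [Real.pi_pos]
  have h4 := Real.mul_abs_le_abs_sin h3
  rw [abs_mul, abs_of_pos Real.pi_pos] at h4
  have h5 : 2 / π * (π * |x - round x|) = 2 * nd x := by
    unfold nd
    field_simp
  rw [h5] at h4
  rw [abs_of_pos (by norm_num : (0 : ℝ) < 2)]
  linarith

lemma geom_bound (x : ℝ) (H : ℕ) {ε : ℝ} (hε : 0 < ε) (hx : ε ≤ nd x) :
    ‖∑ k ∈ Finset.range H, ex (k * x)‖ ≤ 1 / (2 * ε) := by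
  have h1 : (∑ k ∈ Finset.range H, ex (k * x)) * (ex x - 1) = ex x ^ H - 1 := by
    rw [← geom_sum_mul]
    congr 1
    exact Finset.sum_congr rfl (fun k _ => ex_nat_mul k x)
  have h2 : ‖∑ k ∈ Finset.range H, ex (k * x)‖ * ‖ex x - 1‖ ≤ 2 := by
    rw [← norm_mul, h1]
    calc ‖ex x ^ H - 1‖ ≤ ‖ex x ^ H‖ + ‖(1 : ℂ)‖ := norm_sub_le _ _
      _ = 2 := by rw [norm_pow, norm_ex]; norm_num
  have h3 := four_nd_le x
  rw [le_div_iff₀ (by positivity)]
  have h4 : ‖∑ k ∈ Finset.range H, ex (k * x)‖ * (4 * ε) ≤ 2 := by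
    refine le_trans ?_ h2
    gcongr
    linarith
  linarith

lemma norm_ex_sum_le (x : ℝ) (H : ℕ) : ‖∑ k ∈ Finset.range H, ex (k * x)‖ ≤ H := by
  refine (norm_sum_le _ _).trans ?_
  simp [norm_ex]

lemma norm_sq_sum (x : ℝ) (H : ℕ) :
    ‖∑ k ∈ Finset.range H, ex (k * x)‖ ^ 2
      = ∑ k ∈ Finset.range H, ∑ l ∈ Finset.range H, (ex (((k : ℝ) - l) * x)).re := by
  have h1 : ((‖∑ k ∈ Finset.range H, ex (k * x)‖ ^ 2 : ℝ) : ℂ)
      = ∑ k ∈ Finset.range H, ∑ l ∈ Finset.range H, ex (((k : ℝ) - l) * x) := by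
    rw [Complex.ofReal_pow, ← Complex.mul_conj', map_sum, Finset.sum_mul_sum]
    apply Finset.sum_congr rfl; intro k _
    apply Finset.sum_congr rfl; intro l _
    rw [conj_ex, ← ex_add]
    congr 1
    ring
  have h2 := congrArg Complex.re h1
  rw [Complex.ofReal_re] at h2
  rw [h2, Complex.re_sum]
  apply Finset.sum_congr rfl; intro k _
  rw [Complex.re_sum]

variable {Ω : Type*} [MeasurableSpace Ω] {P : Measure Ω}

lemma integrable_ex [IsProbabilityMeasure P] {Y : Ω → ℝ} (hY : Measurable Y) (t s : ℝ) :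
    Integrable (fun ω => ex (t * (Y ω - s))) P := by
  refine Integrable.of_bound (C := 1) ?_ ?_
  · exact (measurable_ex.comp ((hY.sub_const s).const_mul t)).aestronglyMeasurable
  · exact Filter.Eventually.of_forall (fun ω => (norm_ex _).le)

lemma coef_le {Y : Ω → ℝ} {H : ℕ} {c : ℝ}
    (hc : ∀ h : ℕ, 1 ≤ h → h < H → ‖∫ ω, ex (h * Y ω) ∂P‖ ≤ c) (s : ℝ) {k l : ℕ}
    (hk : k < H) (hl : l < H) (hkl : k ≠ l) :
    ‖∫ ω, ex (((k : ℝ) - l) * (Y ω - s)) ∂P‖ ≤ c := by
  have h1 : ∀ t : ℝ, ‖∫ ω, ex (t * (Y ω - s)) ∂P‖ = ‖∫ ω, ex (t * Y ω) ∂P‖ := by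
    intro t
    have : (fun ω => ex (t * (Y ω - s))) = fun ω => ex (-(t * s)) * ex (t * Y ω) := by
      funext ω
      rw [← ex_add]
      congr 1
      ring
    rw [this, integral_const_mul, norm_mul, norm_ex, one_mul]
  rw [h1]
  rcases lt_or_gt_of_ne hkl with h | h
  · have h2 : (fun ω => ex (((k : ℝ) - l) * Y ω))
        = fun ω => (starRingEnd ℂ) (ex (((l - k : ℕ) : ℝ) * Y ω)) := by
      funext ω
      rw [conj_ex]
      congr 1
      push_cast [Nat.cast_sub h.le]
      ring
    rw [h2, integral_conj, RCLike.norm_conj]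
    exact hc (l - k) (by omega) (by omega)
  · have h2 : (k : ℝ) - l = ((k - l : ℕ) : ℝ) := by
      push_cast [Nat.cast_sub h.le]
      ring
    rw [h2]
    exact hc (k - l) (by omega) (by omega)

/-- If the first Fourier coefficients of `Y` are small then `Y` is near `s` modulo one with
probability bounded below. -/
lemma fejer [IsProbabilityMeasure P] {Y : Ω → ℝ} (hY : Measurable Y) {H : ℕ} (hH : 1 ≤ H) {ε : ℝ} (hε : 0 < ε)
    (hHε : 1 ≤ H * ε ^ 2)
    (hc : ∀ h : ℕ, 1 ≤ h → h < H → ‖∫ ω, ex (h * Y ω) ∂P‖ ≤ 1 / (4 * H)) (s : ℝ) :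
    1 / (2 * H) ≤ P.real {ω | nd (Y ω - s) < ε} := by
  have hHR : (1 : ℝ) ≤ H := by exact_mod_cast hH
  have hH0 : (0 : ℝ) < H := by linarith
  set G : Ω → ℝ := fun ω => ‖∑ k ∈ Finset.range H, ex (k * (Y ω - s))‖ ^ 2 with hG
  -- lower bound of the mean
  have hlow : 3 / 4 * (H : ℝ) ≤ ∫ ω, G ω ∂P := by
    have h1 : ∫ ω, G ω ∂P = ∑ k ∈ Finset.range H, ∑ l ∈ Finset.range H,
        (∫ ω, ex (((k : ℝ) - l) * (Y ω - s)) ∂P).re := by
      have hint : ∀ k l : ℕ, Integrable (fun ω => (ex (((k : ℝ) - l) * (Y ω - s))).re) P :=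
        fun k l => (integrable_ex hY _ _).re
      simp only [hG, norm_sq_sum]
      rw [integral_finsetSum _ (fun k _ => integrable_finsetSum _ (fun l _ => hint k l))]
      apply Finset.sum_congr rfl; intro k _
      rw [integral_finsetSum _ (fun l _ => hint k l)]
      apply Finset.sum_congr rfl; intro l _
      exact integral_re (integrable_ex hY _ _)
    rw [h1]
    have h2 : ∀ k ∈ Finset.range H, ∀ l ∈ Finset.range H,
        (if k = l then (1 : ℝ) else 0) - 1 / (4 * H)
          ≤ (∫ ω, ex (((k : ℝ) - l) * (Y ω - s)) ∂P).re := by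
      intro k hk l hl
      rw [Finset.mem_range] at hk hl
      split_ifs with hkl
      · subst hkl
        simp only [sub_self, zero_mul, ex_zero, integral_const, probReal_univ, one_smul,
          Complex.one_re]
        have : 0 ≤ 1 / (4 * (H : ℝ)) := by positivity
        linarith
      · have h3 := coef_le hc s hk hl hkl
        have h4 := (abs_le.1 ((Complex.abs_re_le_norm _).trans h3)).1
        linarith
    calc 3 / 4 * (H : ℝ) = ∑ k ∈ Finset.range H, ∑ l ∈ Finset.range H,
          ((if k = l then (1 : ℝ) else 0) - 1 / (4 * H)) := by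
          simp only [Finset.sum_sub_distrib, Finset.sum_ite_eq, Finset.mem_range, Finset.sum_const,
            Finset.card_range, nsmul_eq_mul]
          rw [Finset.sum_congr rfl (fun k hk => if_pos (Finset.mem_range.1 hk))]
          simp only [Finset.sum_const, Finset.card_range, nsmul_eq_mul]
          field_simp
          norm_num
      _ ≤ _ := Finset.sum_le_sum (fun k hk => Finset.sum_le_sum (fun l hl => h2 k hk l hl))
  -- pointwise upper bound
  set S : Set Ω := {ω | nd (Y ω - s) < ε} with hS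
  have hndm : Measurable nd := continuous_nd.measurable
  have hSm : MeasurableSet S := measurableSet_lt (hndm.comp (hY.sub_const s)) measurable_const
  have hpt : ∀ ω, G ω ≤ S.indicator (fun _ => (H : ℝ) ^ 2) ω + H / 4 := by
    intro ω
    by_cases hω : ω ∈ S
    · rw [Set.indicator_of_mem hω]
      have h1 := norm_ex_sum_le (Y ω - s) H
      have h2 : G ω ≤ (H : ℝ) ^ 2 := by
        simp only [hG]
        gcongr
      have : 0 ≤ (H : ℝ) / 4 := by positivity
      linarith
    · rw [Set.indicator_of_notMem hω, zero_add]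
      have hω' : ε ≤ nd (Y ω - s) := not_lt.1 hω
      have h1 := geom_bound (Y ω - s) H hε hω'
      calc G ω ≤ (1 / (2 * ε)) ^ 2 := by
            simp only [hG]
            gcongr
        _ = 1 / (4 * ε ^ 2) := by ring
        _ ≤ H / 4 := by
            rw [div_le_div_iff₀ (by positivity) (by norm_num)]
            linarith
  have hGint : Integrable G P := by
    refine Integrable.of_bound (C := (H : ℝ) ^ 2) ?_ ?_
    · simp only [hG]
      have : Measurable (fun ω => ∑ k ∈ Finset.range H, ex (k * (Y ω - s))) :=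
        Finset.measurable_fun_sum _ (fun k _ => measurable_ex.comp ((hY.sub_const s).const_mul _))
      exact (this.norm.pow_const 2).aestronglyMeasurable
    · refine Filter.Eventually.of_forall (fun ω => ?_)
      simp only [hG, norm_pow, norm_norm]
      have := norm_ex_sum_le (Y ω - s) H
      gcongr
  have hup : ∫ ω, G ω ∂P ≤ (H : ℝ) ^ 2 * P.real S + H / 4 := by
    calc ∫ ω, G ω ∂P ≤ ∫ ω, (S.indicator (fun _ => (H : ℝ) ^ 2) ω + H / 4) ∂P := by
          apply integral_mono hGint _ hpt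
          exact ((integrable_const _).indicator hSm).add (integrable_const _)
      _ = (H : ℝ) ^ 2 * P.real S + H / 4 := by
          rw [integral_add ((integrable_const _).indicator hSm) (integrable_const _),
            integral_indicator hSm]
          simp [mul_comm]
  have h5 : 1 / 2 * (H : ℝ) ≤ (H : ℝ) ^ 2 * P.real S := by linarith
  rw [div_le_iff₀ (by positivity)]
  have h6 : (H : ℝ) * (1 / 2) ≤ H * (H * P.real S) := by
    calc (H : ℝ) * (1 / 2) = 1 / 2 * H := by ring
      _ ≤ (H : ℝ) ^ 2 * P.real S := h5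
      _ = H * (H * P.real S) := by ring
  have h7 := le_of_mul_le_mul_left h6 hH0
  linarith

end Pool.Agent.V7H27.LC
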