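import Mathlib

/-! The choice of the parameters. -/

namespace Pool.Agent.V7H27.LC

open Real Filter Topology

lemma exists_params {b : ℕ} (hb : 2 ≤ b) {p : ℝ} (hp : 0 < p) (hp1 : p ≤ 1) :
    ∃ (c : ℝ) (G : ℕ → ℕ), 0 < c ∧ (∀ᶠ T in atTop, 200 ≤ G T) ∧
      (∀ᶠ T : ℕ in atTop, (1 - p / ((b : ℝ) + 1) ^ 2) ^ T ≤ 1 / (4 * (G T : ℝ) ^ 8)) ∧
      (∀ᶠ T : ℕ in atTop, (12 * 27 ^ T * (G T : ℝ) ^ 26 * b) ^ c ≤ (G T : ℝ)) ∧
      (Summable fun T => 4 / (G T : ℝ) ^ 4) ∧ Tendsto (fun T => (G T : ℝ)) atTop atTop := by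
  have hb2 : (2 : ℝ) ≤ b := by exact_mod_cast hb
  set ρ : ℝ := 1 - p / ((b : ℝ) + 1) ^ 2 with hρ
  have hρ1 : ρ < 1 := by
    rw [hρ]
    have : 0 < p / ((b : ℝ) + 1) ^ 2 := by positivity
    linarith
  have hρ0 : 0 < ρ := by
    rw [hρ, sub_pos, div_lt_one (by positivity)]
    nlinarith
  set μ : ℝ := (1 / ρ) ^ ((16 : ℕ) : ℝ)⁻¹ with hμ
  have hμ16 : μ ^ 16 = 1 / ρ := Real.rpow_inv_natCast_pow (by positivity) (by norm_num)
  have hμ0 : 0 < μ := by rw [hμ]; positivity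
  have hμ1 : 1 < μ := by
    have h1 : 1 < μ ^ 16 := by
      rw [hμ16, lt_div_iff₀ hρ0]; linarith
    by_contra hcon
    have : μ ^ 16 ≤ 1 := pow_le_one₀ hμ0.le (not_lt.1 hcon)
    linarith
  set D : ℝ := 27 * μ ^ 26 with hD
  have hD1 : 1 < D := by
    rw [hD]
    have : 1 ≤ μ ^ 26 := one_le_pow₀ hμ1.le
    linarith
  have hlogD : 0 < log D := Real.log_pos hD1
  have hlogμ : 0 < log μ := Real.log_pos hμ1
  set c : ℝ := log μ / (2 * log D) with hc
  have hc0 : 0 < c := by rw [hc]; positivity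
  set ν : ℝ := D ^ c with hν
  have hν0 : 0 < ν := by rw [hν]; positivity
  have hν2 : ν ^ 2 = μ := by
    rw [hν, ← Real.rpow_natCast, ← Real.rpow_mul (by linarith), Real.rpow_def_of_pos (by linarith)]
    have : log D * (c * ((2 : ℕ) : ℝ)) = log μ := by
      rw [hc]
      push_cast
      field_simp
    rw [this, Real.exp_log hμ0]
  have hν1 : 1 < ν := by
    by_contra hcon
    have : ν ^ 2 ≤ 1 := pow_le_one₀ hν0.le (not_lt.1 hcon)
    rw [hν2] at this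
    linarith
  set G : ℕ → ℕ := fun T => ⌈μ ^ T⌉₊ with hG
  have hGlow : ∀ T, μ ^ T ≤ G T := fun T => Nat.le_ceil _
  have hGup : ∀ T, (G T : ℝ) ≤ 2 * μ ^ T := by
    intro T
    have h1 : (G T : ℝ) < μ ^ T + 1 := Nat.ceil_lt_add_one (by positivity)
    have h2 : 1 ≤ μ ^ T := one_le_pow₀ hμ1.le
    linarith
  have hμT : Tendsto (fun T : ℕ => μ ^ T) atTop atTop := tendsto_pow_atTop_atTop_of_one_lt hμ1
  have hGT : Tendsto (fun T => (G T : ℝ)) atTop atTop := tendsto_atTop_mono hGlow hμT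
  refine ⟨c, G, hc0, ?_, ?_, ?_, ?_, hGT⟩
  · filter_upwards [hGT.eventually_ge_atTop 200] with T hT
    exact_mod_cast hT
  · -- the main exponential bound
    have h1 : ∀ᶠ T : ℕ in atTop, (1024 : ℝ) ≤ μ ^ T := hμT.eventually_ge_atTop 1024
    filter_upwards [h1] with T hT
    have hG0 : (0 : ℝ) < G T := lt_of_lt_of_le (by positivity) (hGlow T)
    rw [le_div_iff₀ (by positivity)]
    have h2 : (G T : ℝ) ^ 8 ≤ (2 * μ ^ T) ^ 8 := by
      gcongr
      exact hGup T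
    have h3 : ρ ^ T * (μ ^ T) ^ 16 = 1 := by
      have : (μ ^ T) ^ 16 = (μ ^ 16) ^ T := by rw [← pow_mul, ← pow_mul, mul_comm]
      rw [this, hμ16, ← mul_pow]
      have : ρ * (1 / ρ) = 1 := by field_simp
      rw [this, one_pow]
    have h4 : (1024 : ℝ) ≤ (μ ^ T) ^ 8 := by
      calc (1024 : ℝ) ≤ μ ^ T := hT
        _ = (μ ^ T) ^ 1 := (pow_one _).symm
        _ ≤ (μ ^ T) ^ 8 := pow_le_pow_right₀ (by linarith) (by norm_num)
    calc ρ ^ T * (4 * (G T : ℝ) ^ 8) ≤ ρ ^ T * (4 * (2 * μ ^ T) ^ 8) := by gcongr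
      _ = ρ ^ T * (1024 * (μ ^ T) ^ 8) := by ring
      _ ≤ ρ ^ T * ((μ ^ T) ^ 8 * (μ ^ T) ^ 8) := by gcongr
      _ = ρ ^ T * (μ ^ T) ^ 16 := by ring
      _ = 1 := h3
  · -- the logarithm
    set C : ℝ := (12 * 2 ^ 26 * b) ^ c with hC
    have h1 : ∀ᶠ T : ℕ in atTop, C ≤ ν ^ T :=
      (tendsto_pow_atTop_atTop_of_one_lt hν1).eventually_ge_atTop C
    filter_upwards [h1] with T hT
    have h2 : 12 * 27 ^ T * (G T : ℝ) ^ 26 * b ≤ (12 * 2 ^ 26 * b) * D ^ T := by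
      calc 12 * 27 ^ T * (G T : ℝ) ^ 26 * b ≤ 12 * 27 ^ T * (2 * μ ^ T) ^ 26 * b := by
            gcongr
            exact hGup T
        _ = (12 * 2 ^ 26 * b) * D ^ T := by
            rw [hD, mul_pow, mul_pow]
            ring
    calc (12 * 27 ^ T * (G T : ℝ) ^ 26 * b) ^ c ≤ ((12 * 2 ^ 26 * b) * D ^ T) ^ c := by
          apply Real.rpow_le_rpow (by positivity) h2 hc0.le
      _ = C * ν ^ T := by
          rw [Real.mul_rpow (by positivity) (by positivity), hC, hν]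
          congr 1
          rw [← Real.rpow_natCast D T, ← Real.rpow_mul (by linarith), ← Real.rpow_natCast,
            ← Real.rpow_mul (by linarith)]
          congr 1
          ring
      _ ≤ ν ^ T * ν ^ T := by gcongr
      _ = μ ^ T := by rw [← hν2]; ring
      _ ≤ G T := hGlow T
  · refine Summable.of_nonneg_of_le (fun T => by positivity) (fun T => ?_)
      ((summable_geometric_of_lt_one (r := (μ ^ 4)⁻¹) (by positivity) ?_).mul_left 4)
    · have h1 : (μ ^ T) ^ 4 ≤ (G T : ℝ) ^ 4 := by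
        gcongr
        exact hGlow T
      calc 4 / (G T : ℝ) ^ 4 ≤ 4 / (μ ^ T) ^ 4 := by gcongr
        _ = 4 * (μ ^ 4)⁻¹ ^ T := by
            rw [inv_pow, ← pow_mul, ← pow_mul, mul_comm T 4, div_eq_mul_inv]
    · apply inv_lt_one_of_one_lt₀
      exact one_lt_pow₀ hμ1 (by norm_num)

end Pool.Agent.V7H27.LC
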