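import Mathlib
import Pool.Agent.V7H27.LC.Fejer

/-! The window of digits makes a multiple hit every short arc. -/

namespace Pool.Agent.V7H27.LC

open Real MeasureTheory ProbabilityTheory

lemma norm_one_add_ex_le {θ η : ℝ} (hη : 0 ≤ η) (hη1 : η ≤ nd θ) :
    ‖1 + ex θ‖ ≤ 2 * (1 - 2 * η ^ 2) := by
  have h1 : ‖(1 : ℂ) + ex θ‖ ^ 2 + ‖(1 : ℂ) - ex θ‖ ^ 2
      = 2 * (‖(1 : ℂ)‖ ^ 2 + ‖ex θ‖ ^ 2) :=
    parallelogram_law_with_norm ℝ (1 : ℂ) (ex θ)
  rw [norm_ex, norm_one] at h1
  have h2 : 4 * η ≤ ‖(1 : ℂ) - ex θ‖ := by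
    rw [norm_sub_rev]
    linarith [four_nd_le θ]
  have h3 : nd θ ≤ 1 / 2 := nd_le_half θ
  have h4 : η ≤ 1 / 2 := hη1.trans h3
  have h5 : ‖(1 : ℂ) + ex θ‖ ^ 2 ≤ (2 * (1 - 2 * η ^ 2)) ^ 2 := by
    have h6 : (4 * η) ^ 2 ≤ ‖(1 : ℂ) - ex θ‖ ^ 2 := by gcongr
    nlinarith [sq_nonneg (η ^ 2)]
  have h7 : 0 ≤ 2 * (1 - 2 * η ^ 2) := by nlinarith
  exact le_of_sq_le_sq h5 h7

variable {E : Type*} [NormedAddCommGroup E] [NormedSpace ℝ E] [MeasurableSpace E] [BorelSpace E]
variable {Ω : Type*} [MeasurableSpace Ω] {P : Measure Ω} [IsProbabilityMeasure P]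

lemma integrable_ex_comp {f : Ω → ℝ} (hf : Measurable f) : Integrable (fun ω => ex (f ω)) P := by
  refine Integrable.of_bound (C := 1) ?_ ?_
  · exact (measurable_ex.comp hf).aestronglyMeasurable
  · exact Filter.Eventually.of_forall (fun ω => (norm_ex _).le)

lemma coef_le_one {f : Ω → ℝ} : ‖∫ ω, ex (f ω) ∂P‖ ≤ 1 := by
  have := norm_integral_le_of_norm_le_const (μ := P) (f := fun ω => ex (f ω)) (C := 1)
    (Filter.Eventually.of_forall (fun ω => (norm_ex _).le))
  simpa using this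

/-- The factor of a digit with two atoms. -/
lemma factor_le {f : Ω → ℝ} (hf : Measurable f) {r s p η : ℝ} (hrs : r ≠ s) (hp : 0 ≤ p)
    (hr : p ≤ P.real {ω | f ω = r}) (hs : p ≤ P.real {ω | f ω = s})
    (hη : 0 ≤ η) (hη1 : η ≤ nd (r - s)) :
    ‖∫ ω, ex (f ω) ∂P‖ ≤ 1 - 4 * p * η ^ 2 := by
  set A : Set Ω := {ω | f ω = r} with hA
  set B : Set Ω := {ω | f ω = s} with hB
  have hAm : MeasurableSet A := hf (measurableSet_singleton r)
  have hBm : MeasurableSet B := hf (measurableSet_singleton s)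
  have hdisj : Disjoint A B := by
    rw [Set.disjoint_left]
    intro ω h1 h2
    exact hrs (h1.symm.trans h2)
  have hint := integrable_ex_comp (P := P) hf
  have h1 : ∫ ω, ex (f ω) ∂P = ∫ ω in A ∪ B, ex (f ω) ∂P + ∫ ω in (A ∪ B)ᶜ, ex (f ω) ∂P :=
    (integral_add_compl (hAm.union hBm) hint).symm
  have h2 : ∫ ω in A ∪ B, ex (f ω) ∂P = ∫ ω in A, ex (f ω) ∂P + ∫ ω in B, ex (f ω) ∂P :=
    setIntegral_union hdisj hBm hint.integrableOn hint.integrableOn
  have h3 : ∫ ω in A, ex (f ω) ∂P = P.real A * ex r := by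
    rw [setIntegral_congr_fun (g := fun _ => ex r) hAm (fun ω hω => by
      have : f ω = r := hω
      simp only [this])]
    simp
  have h4 : ∫ ω in B, ex (f ω) ∂P = P.real B * ex s := by
    rw [setIntegral_congr_fun (g := fun _ => ex s) hBm (fun ω hω => by
      have : f ω = s := hω
      simp only [this])]
    simp
  have h5 : ‖∫ ω in (A ∪ B)ᶜ, ex (f ω) ∂P‖ ≤ 1 - P.real A - P.real B := by
    have h6 := norm_setIntegral_le_of_norm_le_const (μ := P) (s := (A ∪ B)ᶜ)
      (f := fun ω => ex (f ω)) (C := 1) (measure_lt_top _ _)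
      (fun ω _ => (norm_ex _).le)
    refine h6.trans (le_of_eq ?_)
    rw [one_mul, probReal_compl_eq_one_sub (hAm.union hBm), measureReal_union hdisj hBm]
    ring
  have h7 : ‖(P.real A : ℂ) * ex r + P.real B * ex s‖
      ≤ (P.real A - p) + (P.real B - p) + p * (2 * (1 - 2 * η ^ 2)) := by
    have h8 : (P.real A : ℂ) * ex r + P.real B * ex s
        = ((P.real A - p : ℝ) : ℂ) * ex r + ((P.real B - p : ℝ) : ℂ) * ex s
          + (p : ℂ) * (ex s * (1 + ex (r - s))) := by
      have h9 : ex r = ex s * ex (r - s) := by rw [← ex_add]; congr 1; ring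
      rw [mul_add, mul_one, ← h9]
      push_cast
      ring
    rw [h8]
    refine (norm_add_le _ _).trans (add_le_add ((norm_add_le _ _).trans (add_le_add ?_ ?_)) ?_)
    · rw [norm_mul, norm_ex, mul_one, Complex.norm_real, Real.norm_eq_abs, abs_of_nonneg]
      linarith
    · rw [norm_mul, norm_ex, mul_one, Complex.norm_real, Real.norm_eq_abs, abs_of_nonneg]
      linarith
    · rw [norm_mul, norm_mul, norm_ex, one_mul, Complex.norm_real, Real.norm_eq_abs,
        abs_of_nonneg hp]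
      exact mul_le_mul_of_nonneg_left (norm_one_add_ex_le hη hη1) hp
  rw [h1, h2, h3, h4]
  calc _ ≤ ‖(P.real A : ℂ) * ex r + P.real B * ex s‖ + ‖∫ ω in (A ∪ B)ᶜ, ex (f ω) ∂P‖ :=
        norm_add_le _ _
    _ ≤ ((P.real A - p) + (P.real B - p) + p * (2 * (1 - 2 * η ^ 2)))
        + (1 - P.real A - P.real B) := add_le_add h7 h5
    _ = 1 - 4 * p * η ^ 2 := by ring

/-- The sum of the digits of a window. -/
noncomputable def wsum (b : ℕ) (ξ : ℕ → Ω → E) (S : Finset ℕ) (ω : Ω) : E :=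
  ∑ j ∈ S, ((b : ℝ) ^ (j + 1))⁻¹ • ξ j ω

omit [IsProbabilityMeasure P] in
lemma coef_window {b : ℕ} {ξ : ℕ → Ω → E} (hm : ∀ j, Measurable (ξ j))
    (hi : iIndepFun ξ P) (ζ : E →L[ℝ] ℝ) (c t : ℝ) (S : Finset ℕ) :
    ‖∫ ω, ex (t * (c + ζ (wsum b ξ S ω))) ∂P‖
      = ∏ j ∈ S, ‖∫ ω, ex (t / (b : ℝ) ^ (j + 1) * ζ (ξ j ω)) ∂P‖ := by
  have h1 : (fun ω => ex (t * (c + ζ (wsum b ξ S ω))))
      = fun ω => ex (t * c) * ∏ j : S, ex (t / (b : ℝ) ^ ((j : ℕ) + 1) * ζ (ξ j ω)) := by
    funext ω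
    rw [mul_add, ex_add]
    congr 1
    unfold wsum
    rw [map_sum, Finset.mul_sum, ← Finset.sum_coe_sort]
    have h2 : ∀ (s : Finset S) (g : S → ℝ), ex (∑ j ∈ s, g j) = ∏ j ∈ s, ex (g j) := by
      intro s g
      classical
      induction s using Finset.induction_on with
      | empty => simp [ex_zero]
      | insert a s ha ih => rw [Finset.sum_insert ha, Finset.prod_insert ha, ex_add, ih]
    rw [h2]
    apply Finset.prod_congr rfl
    intro j _
    congr 1
    rw [map_smul, smul_eq_mul]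
    ring
  rw [h1, integral_const_mul, norm_mul, norm_ex, one_mul]
  have hi' : iIndepFun (fun j : S => ξ j) P := hi.precomp Subtype.val_injective
  have h3 := hi'.integral_fun_prod_comp (𝕜 := ℂ)
    (f := fun (j : S) (e : E) => ex (t / (b : ℝ) ^ ((j : ℕ) + 1) * ζ e))
    (fun j => (hm j).aemeasurable)
    (fun j => (measurable_ex.comp ((ζ.continuous.measurable).const_mul _)).aestronglyMeasurable)
  rw [h3, norm_prod, Finset.prod_coe_sort S
    (fun j => ‖∫ ω, ex (t / (b : ℝ) ^ (j + 1) * ζ (ξ j ω)) ∂P‖)]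

/-- If `z x` has many bad positions in the window for all multiples `h < H`, then `x (c + ζ W)`
hits every short arc. -/
lemma hit {b : ℕ} (hb : 2 ≤ b) {ξ : ℕ → Ω → E} (hm : ∀ j, Measurable (ξ j))
    (hi : iIndepFun ξ P) {u v : E} {p : ℝ} (hp : 0 < p)
    (hu : ∀ j, p ≤ P.real {ω | ξ j ω = u}) (hv : ∀ j, p ≤ P.real {ω | ξ j ω = v})
    (ζ : E →L[ℝ] ℝ) (c : ℝ) (x : ℤ) {J L T H : ℕ} (hL : L ≤ J) (hH : 1 ≤ H)
    (hT : ∀ h : ℕ, 1 ≤ h → h < H →
      T ≤ (badset b (h * ζ (u - v)) x (Finset.Ioc (J - L) J)).card)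
    (hρ : (1 - p / ((b : ℝ) + 1) ^ 2) ^ T ≤ 1 / (4 * H)) {ε : ℝ} (hε : 0 < ε)
    (hHε : 1 ≤ H * ε ^ 2) (s : ℝ) :
    1 / (2 * H) ≤
      P.real {ω | nd (x * (c + ζ (wsum b ξ (Finset.Ico (J - L) (J + L)) ω)) - s) < ε} := by
  have hb0 : (0 : ℝ) < b := by positivity
  set S := Finset.Ico (J - L) (J + L) with hS
  have hζm : Measurable (fun ω => ζ (wsum b ξ S ω)) := by
    have : (fun ω => ζ (wsum b ξ S ω)) = fun ω => ∑ j ∈ S, ((b : ℝ) ^ (j + 1))⁻¹ * ζ (ξ j ω) := by
      funext ω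
      unfold wsum
      rw [map_sum]
      apply Finset.sum_congr rfl
      intro j _
      rw [map_smul, smul_eq_mul]
    rw [this]
    exact Finset.measurable_fun_sum _
      (fun j _ => (ζ.continuous.measurable.comp (hm j)).const_mul _)
  have hYm : Measurable (fun ω => (x : ℝ) * (c + ζ (wsum b ξ S ω))) :=
    (hζm.const_add c).const_mul _
  refine fejer hYm hH hε hHε ?_ s
  intro h h1 h2
  have h3 : (fun ω => ex ((h : ℝ) * ((x : ℝ) * (c + ζ (wsum b ξ S ω)))))
      = fun ω => ex (((h : ℝ) * x) * (c + ζ (wsum b ξ S ω))) := by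
    funext ω; congr 1; ring
  rw [h3, coef_window hm hi]
  refine le_trans ?_ hρ
  -- the bad positions
  set ρ : ℝ := 1 - p / ((b : ℝ) + 1) ^ 2 with hρdef
  have hp1 : p ≤ 1 := (hu 0).trans (measureReal_le_one)
  have hρ0 : 0 ≤ ρ := by
    rw [hρdef, sub_nonneg, div_le_one (by positivity)]
    nlinarith
  have hρ1 : ρ ≤ 1 := by
    rw [hρdef]
    have : 0 ≤ p / ((b : ℝ) + 1) ^ 2 := by positivity
    linarith
  set Bd := badset b (h * ζ (u - v)) x (Finset.Ioc (J - L) J) with hBd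
  set Bd' : Finset ℕ := S.filter (fun j => j + 1 ∈ Bd) with hBd'
  have hcard : Bd.card ≤ Bd'.card := by
    apply Finset.card_le_card_of_injOn (fun j => j - 1)
    · intro j hj
      have hj' : j ∈ Bd := hj
      rw [hBd, badset, Finset.mem_filter, Finset.mem_Ioc] at hj'
      simp only [hBd', hS, Finset.coe_filter, Finset.mem_Ico, Set.mem_ofPred_eq]
      have h5 : j - 1 + 1 = j := by omega
      rw [h5]
      exact ⟨⟨by omega, by omega⟩, hj⟩
    · intro j hj k hk hjk
      have hj' : j ∈ Bd := hj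
      have hk' : k ∈ Bd := hk
      rw [hBd, badset, Finset.mem_filter, Finset.mem_Ioc] at hj' hk'
      simp only at hjk
      omega
  have hTc : T ≤ Bd'.card := (hT h h1 h2).trans hcard
  calc ∏ j ∈ S, ‖∫ ω, ex ((h : ℝ) * x / (b : ℝ) ^ (j + 1) * ζ (ξ j ω)) ∂P‖
      ≤ ∏ j ∈ S, (if j ∈ Bd' then ρ else 1) := by
        apply Finset.prod_le_prod (fun _ _ => norm_nonneg _)
        intro j hj
        split_ifs with hjB
        · rw [hBd', Finset.mem_filter, hBd, badset, Finset.mem_filter] at hjB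
          have hbad := hjB.2.2
          set t : ℝ := (h : ℝ) * x / (b : ℝ) ^ (j + 1) with ht
          have h6 : (h : ℝ) * ζ (u - v) * x / (b : ℝ) ^ (j + 1) = t * ζ u - t * ζ v := by
            rw [ht, map_sub]; ring
          rw [h6] at hbad
          have h7 : t * ζ u ≠ t * ζ v := by
            intro heq
            rw [heq, sub_self] at hbad
            have h8 : nd 0 = 0 := by simp [nd]
            rw [h8] at hbad
            have : 0 < 1 / (2 * ((b : ℝ) + 1)) := by positivity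
            linarith
          have h9 := factor_le (P := P) (f := fun ω => t * ζ (ξ j ω)) (r := t * ζ u)
            (s := t * ζ v) (p := p) (η := 1 / (2 * ((b : ℝ) + 1)))
            ((ζ.continuous.measurable.comp (hm j)).const_mul _) h7 hp.le
            ((hu j).trans (measureReal_mono (fun ω hω => by
              have : ξ j ω = u := hω
              show t * ζ (ξ j ω) = t * ζ u
              rw [this])))
            ((hv j).trans (measureReal_mono (fun ω hω => by
              have : ξ j ω = v := hω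
              show t * ζ (ξ j ω) = t * ζ v
              rw [this])))
            (by positivity) hbad
          refine h9.trans (le_of_eq ?_)
          rw [hρdef]
          field_simp
          ring
        · exact coef_le_one
    _ = ρ ^ Bd'.card := by
        rw [Finset.prod_ite, Finset.prod_const_one, mul_one, Finset.prod_const]
        congr 2
        ext j
        simp only [hBd', Finset.mem_filter]
        tauto
    _ ≤ ρ ^ T := pow_le_pow_of_le_one hρ0 hρ1 hTc

end Pool.Agent.V7H27.LC
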