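import Mathlib
import Pool.Agent.V7H27.LC.Hit

/-! Consecutive windows of independent digits. -/

set_option linter.unusedSectionVars false

namespace Pool.Agent.V7H27.LC

open Real MeasureTheory ProbabilityTheory
open scoped ENNReal

variable {E : Type*} [NormedAddCommGroup E] [NormedSpace ℝ E] [MeasurableSpace E] [BorelSpace E]
  [SecondCountableTopology E]
variable {Ω : Type*} {mΩ : MeasurableSpace Ω} {P : Measure Ω} [IsProbabilityMeasure P]

omit [NormedSpace ℝ E] in
lemma indep_step {O : Type*} {m1 m2 mO : MeasurableSpace O} {P : Measure O}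
    [IsProbabilityMeasure P] (h1 : m1 ≤ mO) (h2 : m2 ≤ mO)
    (hind : Indep m1 m2 P) {D : Set O} (hD : MeasurableSet[m1] D) {f W : O → E}
    (hf : Measurable[m1] f) (hW : Measurable[m2] W) {C : Set (E × E)} (hC : MeasurableSet C)
    {θ : ℝ≥0∞} (hθ : ∀ a, P {ω | (a, W ω) ∈ C} ≤ θ) :
    P (D ∩ {ω | (f ω, W ω) ∈ C}) ≤ θ * P D := by
  classical
  set U : O → ℝ × E := fun ω => (D.indicator (fun _ => (1 : ℝ)) ω, f ω) with hU
  have hUm : Measurable[m1] U := by
    apply Measurable.prodMk
    · exact Measurable.indicator measurable_const hD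
    · exact hf
  have hUm' : Measurable U := hUm.mono h1 le_rfl
  have hWm' : Measurable W := hW.mono h2 le_rfl
  have hUW : IndepFun U W P := by
    rw [IndepFun_iff_Indep]
    exact indep_of_indep_of_le_left (indep_of_indep_of_le_right hind hW.comap_le) hUm.comap_le
  have hmap := hUW.map_prod_eq_prod_map_map hUm'.aemeasurable hWm'.aemeasurable
  set G : Set ((ℝ × E) × E) := {q | q.1.1 = 1 ∧ (q.1.2, q.2) ∈ C} with hG
  have hGm : MeasurableSet G := by
    apply MeasurableSet.inter
    · exact (measurable_fst.comp measurable_fst) (measurableSet_singleton (1 : ℝ))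
    · exact ((measurable_snd.comp measurable_fst).prodMk measurable_snd) hC
  have e1 : D ∩ {ω | (f ω, W ω) ∈ C} = (fun ω => (U ω, W ω)) ⁻¹' G := by
    ext ω
    simp only [Set.mem_inter_iff, Set.mem_ofPred_eq, Set.mem_preimage, hG, hU]
    by_cases hω : ω ∈ D
    · simp [hω]
    · simp [hω]
  have e2 : P (D ∩ {ω | (f ω, W ω) ∈ C}) = ((P.map U).prod (P.map W)) G := by
    rw [e1, ← Measure.map_apply (hUm'.prodMk hWm') hGm, hmap]
  have hPW : IsProbabilityMeasure (P.map W) := Measure.isProbabilityMeasure_map hWm'.aemeasurable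
  rw [e2, Measure.prod_apply hGm]
  set V : Set (ℝ × E) := {q | q.1 = 1} with hV
  have hVm : MeasurableSet V := measurable_fst (measurableSet_singleton (1 : ℝ))
  have hle : ∀ q : ℝ × E, (P.map W) (Prod.mk q ⁻¹' G) ≤ V.indicator (fun _ => θ) q := by
    intro q
    by_cases hq : q ∈ V
    · rw [Set.indicator_of_mem hq]
      have hq' : q.1 = 1 := hq
      have hset : Prod.mk q ⁻¹' G = {w | (q.2, w) ∈ C} := by
        ext w
        simp [hG, hq']
      have hCq : MeasurableSet {w : E | (q.2, w) ∈ C} := measurable_prodMk_left hC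
      rw [hset, Measure.map_apply hWm' hCq]
      exact hθ q.2
    · rw [Set.indicator_of_notMem hq]
      have hset : Prod.mk q ⁻¹' G = ∅ := by
        ext w
        simp only [hG, Set.mem_preimage, Set.mem_ofPred_eq, Set.mem_empty_iff_false, iff_false]
        intro h
        exact hq h.1
      rw [hset, measure_empty]
  calc ∫⁻ q, (P.map W) (Prod.mk q ⁻¹' G) ∂(P.map U)
      ≤ ∫⁻ q, V.indicator (fun _ => θ) q ∂(P.map U) := lintegral_mono hle
    _ = θ * (P.map U) V := lintegral_indicator_const hVm θ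
    _ = θ * P D := by
        rw [Measure.map_apply hUm' hVm]
        congr 2
        ext ω
        simp only [hU, hV, Set.mem_preimage, Set.mem_ofPred_eq]
        by_cases hω : ω ∈ D <;> simp [hω]

/-- The σ-algebra of the digits in `S`. -/
@[reducible] def sg (ξ : ℕ → Ω → E) (S : Set ℕ) : MeasurableSpace Ω :=
  ⨆ j ∈ S, MeasurableSpace.comap (ξ j) inferInstance

omit [NormedAddCommGroup E] [NormedSpace ℝ E] [SecondCountableTopology E] [BorelSpace E] in
lemma sg_mono (ξ : ℕ → Ω → E) {S S' : Set ℕ} (h : S ⊆ S') : sg ξ S ≤ sg ξ S' :=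
  biSup_mono h

omit [NormedSpace ℝ E] [SecondCountableTopology E] [BorelSpace E] in
lemma sg_le {ξ : ℕ → Ω → E} (hm : ∀ j, Measurable (ξ j)) (S : Set ℕ) : sg ξ S ≤ mΩ :=
  iSup₂_le (fun j _ => (hm j).comap_le)

lemma measurable_wsum (b : ℕ) (ξ : ℕ → Ω → E) (S : Finset ℕ) {S' : Set ℕ} (h : ↑S ⊆ S') :
    Measurable[sg ξ S'] (wsum b ξ S) := by
  unfold wsum
  apply Finset.measurable_fun_sum
  intro j hj
  apply Measurable.const_smul
  have h1 : MeasurableSpace.comap (ξ j) inferInstance ≤ sg ξ S' :=
    le_iSup₂ (f := fun j (_ : j ∈ S') => MeasurableSpace.comap (ξ j) inferInstance) j (h hj)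
  exact (comap_measurable (ξ j)).mono h1 le_rfl

lemma block {b : ℕ} {ξ : ℕ → Ω → E} (hm : ∀ j, Measurable (ξ j)) (hi : iIndepFun ξ P)
    {n n' : ℕ → ℕ} (hn : ∀ s, n s ≤ n' s) (hn' : ∀ s, n' s ≤ n (s + 1))
    {C : ℕ → Set (E × E)} (hC : ∀ s, MeasurableSet (C s)) {θ : ℝ≥0∞}
    {N : ℕ} (hθ : ∀ s < N, ∀ a, P {ω | (a, wsum b ξ (Finset.Ico (n s) (n' s)) ω) ∈ C s} ≤ θ) :
    P {ω | ∀ s < N, (wsum b ξ (Finset.range (n s)) ω,
      wsum b ξ (Finset.Ico (n s) (n' s)) ω) ∈ C s} ≤ θ ^ N := by
  have key : ∀ k ≤ N, MeasurableSet[sg ξ (Set.Iio (n k))] {ω | ∀ s < k,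
      (wsum b ξ (Finset.range (n s)) ω, wsum b ξ (Finset.Ico (n s) (n' s)) ω) ∈ C s} ∧
      P {ω | ∀ s < k, (wsum b ξ (Finset.range (n s)) ω,
        wsum b ξ (Finset.Ico (n s) (n' s)) ω) ∈ C s} ≤ θ ^ k := by
    intro k
    induction k with
    | zero =>
      intro _
      have : {ω : Ω | ∀ s < 0, (wsum b ξ (Finset.range (n s)) ω,
        wsum b ξ (Finset.Ico (n s) (n' s)) ω) ∈ C s} = Set.univ := by
        ext ω; simp
      rw [this]
      refine ⟨MeasurableSet.univ, ?_⟩
      simp
    | succ k ih =>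
      intro hkN
      obtain ⟨ih1, ih2⟩ := ih (by omega)
      have hset : {ω : Ω | ∀ s < k + 1, (wsum b ξ (Finset.range (n s)) ω,
          wsum b ξ (Finset.Ico (n s) (n' s)) ω) ∈ C s}
          = {ω | ∀ s < k, (wsum b ξ (Finset.range (n s)) ω,
              wsum b ξ (Finset.Ico (n s) (n' s)) ω) ∈ C s}
            ∩ {ω | (wsum b ξ (Finset.range (n k)) ω,
              wsum b ξ (Finset.Ico (n k) (n' k)) ω) ∈ C k} := by
        ext ω
        simp only [Set.mem_ofPred_eq, Set.mem_inter_iff]
        constructor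
        · intro h
          exact ⟨fun s hs => h s (by omega), h k (by omega)⟩
        · rintro ⟨h1, h2⟩ s hs
          rcases Nat.lt_succ_iff_lt_or_eq.1 hs with h | h
          · exact h1 s h
          · rw [h]; exact h2
      rw [hset]
      constructor
      · apply MeasurableSet.inter
        · exact sg_mono ξ (Set.Iio_subset_Iio ((hn k).trans (hn' k))) _ ih1
        · have h1 : Measurable[sg ξ (Set.Iio (n (k + 1)))] (wsum b ξ (Finset.range (n k))) :=
            measurable_wsum b ξ _ (by
              intro j hj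
              have := hn k
              have := hn' k
              simp only [Finset.coe_range, Set.mem_Iio] at hj ⊢
              omega)
          have h2 : Measurable[sg ξ (Set.Iio (n (k + 1)))]
              (wsum b ξ (Finset.Ico (n k) (n' k))) :=
            measurable_wsum b ξ _ (by
              intro j hj
              have := hn' k
              simp only [Finset.coe_Ico, Set.mem_Ico, Set.mem_Iio] at hj ⊢
              omega)
          exact (Measurable.prodMk h1 h2) (hC k)
      · have hind : Indep (sg ξ (Set.Iio (n k))) (sg ξ (Set.Ico (n k) (n' k))) P := by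
          apply indep_iSup_of_disjoint (fun j => (hm j).comap_le) hi
          rw [Set.disjoint_left]
          intro j h1 h2
          simp only [Set.mem_Iio, Set.mem_Ico] at h1 h2
          omega
        have h3 := indep_step (sg_le hm _) (sg_le hm _) hind ih1
          (measurable_wsum b ξ (Finset.range (n k)) (by simp))
          (measurable_wsum b ξ (Finset.Ico (n k) (n' k)) (by simp)) (hC k) (hθ k (by omega))
        refine h3.trans ?_
        rw [pow_succ, mul_comm]
        gcongr
  exact (key N le_rfl).2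

end Pool.Agent.V7H27.LC
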