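import Mathlib
import Pool.Agent.V7H27.LC.Dioph

/-! Good inhomogeneous approximations at many consecutive scales. -/

namespace Pool.Agent.V7H27.LC

open Real

lemma approx_one {α γ Ψ : ℝ} {n : ℕ} (hn : 1 ≤ n) (hΨ : 1 ≤ Ψ)
    (h : ∀ X : ℤ, X ≠ 0 → |(X : ℝ)| ≤ n → 1 / Ψ ≤ |(X : ℝ)| * nd (X * α)) :
    ∃ x y : ℤ, (n : ℝ) / Ψ ≤ x ∧ (x : ℝ) ≤ 3 * n ∧ 1 / (2 * Ψ * n) ≤ |x * α - y - γ| ∧
      |x * α - y - γ| ≤ 4 * Ψ / n := by
  have hΨ0 : 0 < Ψ := by linarith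
  have hn0 : (0 : ℝ) < n := by exact_mod_cast hn
  obtain ⟨r, hr1, hr2⟩ := Real.exists_rat_abs_sub_le_and_den_le α (n := n) (by omega)
  set q : ℤ := (r.den : ℤ) with hq
  set p : ℤ := r.num with hp
  have hqpos : 0 < q := by rw [hq]; exact_mod_cast r.pos
  have hqR : (0 : ℝ) < q := by exact_mod_cast hqpos
  have hqn : (q : ℝ) ≤ n := by rw [hq]; exact_mod_cast hr2
  have hrq : (r : ℝ) = p / q := by
    rw [hp, hq]; push_cast; exact Rat.cast_def r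
  have hr1' : |α - (r : ℝ)| ≤ 1 / (((n : ℝ) + 1) * (q : ℝ)) := by
    rw [hq]; push_cast; exact hr1
  set e : ℝ := q * α - p with he
  have he1 : |e| ≤ 1 / (n + 1) := by
    have : e = q * (α - r) := by rw [he, hrq]; field_simp
    rw [this, abs_mul, abs_of_pos hqR]
    calc (q : ℝ) * |α - r| ≤ q * (1 / ((n + 1) * q)) := by gcongr
      _ = 1 / (n + 1) := by field_simp
  have he2 : 1 / Ψ ≤ q * |e| := by
    have h1 := h q (by omega) (by rw [abs_of_pos hqR]; exact hqn)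
    rw [abs_of_pos hqR] at h1
    refine h1.trans ?_
    gcongr
    exact nd_le _ _
  have hepos : 0 < |e| := by
    by_contra hcon
    have : |e| = 0 := le_antisymm (not_lt.1 hcon) (abs_nonneg _)
    rw [this, mul_zero] at he2
    have : 0 < 1 / Ψ := by positivity
    linarith
  have hqlow : ((n : ℝ) + 1) / Ψ ≤ q := by
    rw [div_le_iff₀ hΨ0]
    rw [div_le_iff₀ hΨ0] at he2
    have h2 : (q : ℝ) * |e| * Ψ ≤ q * (1 / (n + 1)) * Ψ := by gcongr
    have h3 : 1 ≤ q * (1 / ((n : ℝ) + 1)) * Ψ := he2.trans h2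
    have h4 : (q : ℝ) * (1 / ((n : ℝ) + 1)) * Ψ = q * Ψ / (n + 1) := by ring
    rw [h4, one_le_div (by positivity)] at h3
    exact h3
  have helow : 1 / (Ψ * n) ≤ |e| := by
    rw [div_le_iff₀ (by positivity)]
    rw [div_le_iff₀ hΨ0] at he2
    calc 1 ≤ q * |e| * Ψ := he2
      _ ≤ n * |e| * Ψ := by gcongr
      _ = |e| * (Ψ * n) := by ring
  -- the inhomogeneous part
  set t : ℤ := round (q * γ) with ht
  have hcop : IsCoprime p q := by
    rw [hp, hq, Int.isCoprime_iff_gcd_eq_one]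
    exact r.reduced
  obtain ⟨u, w, huw⟩ := hcop
  set m : ℤ := (t * u) % q with hm
  have hm0 : 0 ≤ m := Int.emod_nonneg _ (by omega)
  have hmq : m < q := Int.emod_lt_of_pos _ hqpos
  have hdvd : q ∣ m * p - t := by
    have h1 : q ∣ t * u - m := Int.dvd_self_sub_emod
    have h2 : m * p - t = -(t * u - m) * p + t * (u * p - 1) := by ring
    rw [h2]
    apply dvd_add
    · exact Dvd.dvd.mul_right ((dvd_neg).2 h1) _
    · have : u * p - 1 = -w * q := by linarith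
      rw [this]
      exact ⟨t * -w, by ring⟩
  obtain ⟨s, hs⟩ := hdvd
  set d0 : ℝ := m * α - s - γ with hd0
  have hd0' : |d0| ≤ 1 / (n + 1) + Ψ / (2 * (n + 1)) := by
    have h1 : (s : ℝ) = (m * p - t) / q := by
      rw [eq_div_iff hqR.ne']
      have : ((m * p - t : ℤ) : ℝ) = ((q * s : ℤ) : ℝ) := by rw [hs]
      push_cast at this
      linarith
    have h2 : d0 = m * (α - r) - (q * γ - t) / q := by
      rw [hd0, h1, hrq]; field_simp; ring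
    rw [h2]
    have h3 : |(m : ℝ) * (α - r)| ≤ 1 / (n + 1) := by
      rw [abs_mul, abs_of_nonneg (by exact_mod_cast hm0)]
      calc (m : ℝ) * |α - r| ≤ q * (1 / ((n + 1) * q)) := by
            apply mul_le_mul (by exact_mod_cast hmq.le) hr1' (abs_nonneg _) hqR.le
        _ = 1 / (n + 1) := by field_simp
    have h4 : |(q * γ - t) / q| ≤ Ψ / (2 * (n + 1)) := by
      rw [abs_div, abs_of_pos hqR]
      have h5 : |q * γ - t| ≤ 1 / 2 := abs_sub_round _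
      calc |q * γ - t| / q ≤ (1 / 2) / (((n : ℝ) + 1) / Ψ) := by gcongr
        _ = Ψ / (2 * (n + 1)) := by field_simp
    exact (abs_sub _ _).trans (add_le_add h3 h4)
  -- choose the multiple
  have hchoice : ∃ k : ℤ, 1 ≤ k ∧ k ≤ 2 ∧ |e| / 2 ≤ |d0 + k * e| := by
    by_cases h1 : |e| / 2 ≤ |d0 + e|
    · exact ⟨1, le_rfl, by norm_num, by simpa using h1⟩
    · refine ⟨2, by norm_num, le_rfl, ?_⟩
      push Not at h1
      have h3 : |e| ≤ |d0 + 2 * e| + |d0 + e| := by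
        have h2 : e = (d0 + 2 * e) - (d0 + e) := by ring
        calc |e| = |(d0 + 2 * e) - (d0 + e)| := by rw [← h2]
          _ ≤ _ := abs_sub _ _
      have h4 : |e| / 2 ≤ |d0 + 2 * e| := by linarith
      simpa using h4
  obtain ⟨k, hk1, hk2, hk⟩ := hchoice
  have hk1R : (1 : ℝ) ≤ k := by exact_mod_cast hk1
  have hk2R : (k : ℝ) ≤ 2 := by exact_mod_cast hk2
  have hdd : ((m + k * q : ℤ) : ℝ) * α - ((s + k * p : ℤ) : ℝ) - γ = d0 + k * e := by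
    rw [hd0, he]; push_cast; ring
  refine ⟨m + k * q, s + k * p, ?_, ?_, ?_, ?_⟩
  · push_cast
    have h1 : (0 : ℝ) ≤ m := by exact_mod_cast hm0
    have h2 : (q : ℝ) ≤ k * q := le_mul_of_one_le_left hqR.le hk1R
    have h3 : (n : ℝ) / Ψ ≤ ((n : ℝ) + 1) / Ψ := by gcongr; linarith
    linarith
  · push_cast
    have h1 : (m : ℝ) ≤ q := by exact_mod_cast hmq.le
    have h2 : (k : ℝ) * q ≤ 2 * q := by gcongr
    linarith
  · rw [hdd]
    refine le_trans ?_ hk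
    calc 1 / (2 * Ψ * n) = (1 / (Ψ * n)) / 2 := by field_simp
      _ ≤ |e| / 2 := by gcongr
  · rw [hdd]
    calc |d0 + k * e| ≤ |d0| + |(k : ℝ) * e| := abs_add_le _ _
      _ ≤ (1 / (n + 1) + Ψ / (2 * (n + 1))) + 2 * (1 / (n + 1)) := by
          rw [abs_mul, abs_of_nonneg (by linarith : (0 : ℝ) ≤ k)]
          gcongr
      _ = (3 + Ψ / 2) / (n + 1) := by field_simp; ring
      _ ≤ 4 * Ψ / n := by
          rw [div_le_div_iff₀ (by positivity) hn0]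
          nlinarith

/-- Good inhomogeneous approximations at the scales `K^i n₀`, `i ≤ R`. -/
lemma approx_many {α γ Ψ : ℝ} {n0 K R : ℕ} (hn : 1 ≤ n0) (hΨ : 1 ≤ Ψ)
    (hK : 100 * Ψ ^ 2 ≤ K)
    (h : ∀ X : ℤ, X ≠ 0 → |(X : ℝ)| ≤ (K : ℝ) ^ R * n0 → 1 / Ψ ≤ |(X : ℝ)| * nd (X * α)) :
    ∃ x y : ℕ → ℤ, (∀ i ≤ R, (n0 : ℝ) / Ψ ≤ x i ∧ (x i : ℝ) ≤ 3 * (K : ℝ) ^ R * n0 ∧
        0 < |x i * α - y i - γ| ∧ |x i * α - y i - γ| ≤ 4 * Ψ / n0 ∧
        (x i : ℝ) * |x i * α - y i - γ| ≤ 12 * Ψ) ∧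
      ∀ i j, i < j → j ≤ R → 2 * (x i : ℝ) ≤ x j ∧
        4 * |x j * α - y j - γ| ≤ |x i * α - y i - γ| := by
  have hΨ0 : 0 < Ψ := by linarith
  have hn0 : (1 : ℝ) ≤ n0 := by exact_mod_cast hn
  have hK100 : (100 : ℝ) ≤ K := by nlinarith
  have hK1 : (1 : ℝ) ≤ K := by linarith
  have hstep : ∀ i : ℕ, ∃ xy : ℤ × ℤ, i ≤ R → ((K : ℝ) ^ i * n0 / Ψ ≤ xy.1 ∧
      (xy.1 : ℝ) ≤ 3 * ((K : ℝ) ^ i * n0) ∧
      1 / (2 * Ψ * ((K : ℝ) ^ i * n0)) ≤ |xy.1 * α - xy.2 - γ| ∧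
      |xy.1 * α - xy.2 - γ| ≤ 4 * Ψ / ((K : ℝ) ^ i * n0)) := by
    intro i
    by_cases hi : i ≤ R
    swap
    · exact ⟨(0, 0), fun h => absurd h hi⟩
    have hKi : 1 ≤ K ^ i * n0 := by
      have : 1 ≤ K := by exact_mod_cast hK1
      exact Nat.mul_pos (Nat.pow_pos this) hn
    obtain ⟨x, y, h1, h2, h3, h4⟩ := approx_one (α := α) (γ := γ) (Ψ := Ψ) (n := K ^ i * n0) hKi hΨ
      (by
        intro X hX hXn
        apply h X hX
        refine hXn.trans ?_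
        push_cast
        gcongr)
    refine ⟨(x, y), fun _ => ?_⟩
    push_cast at h1 h2 h3 h4
    exact ⟨h1, h2, h3, h4⟩
  choose g hg using hstep
  refine ⟨fun i => (g i).1, fun i => (g i).2, ?_, ?_⟩
  · intro i hi
    obtain ⟨h1, h2, h3, h4⟩ := hg i hi
    have hKi : (1 : ℝ) ≤ (K : ℝ) ^ i := one_le_pow₀ hK1
    have hKR : (K : ℝ) ^ i ≤ (K : ℝ) ^ R := pow_le_pow_right₀ hK1 hi
    have hKn : (n0 : ℝ) ≤ (K : ℝ) ^ i * n0 := le_mul_of_one_le_left (by linarith) hKi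
    refine ⟨?_, ?_, ?_, ?_, ?_⟩
    · refine le_trans ?_ h1
      gcongr
    · refine h2.trans ?_
      rw [mul_assoc]
      gcongr
    · refine lt_of_lt_of_le ?_ h3
      positivity
    · refine h4.trans ?_
      gcongr
    · calc ((g i).1 : ℝ) * |(g i).1 * α - (g i).2 - γ|
          ≤ (3 * ((K : ℝ) ^ i * n0)) * (4 * Ψ / ((K : ℝ) ^ i * n0)) := by
            gcongr
        _ = 12 * Ψ := by field_simp; norm_num
  · intro i j hij hj
    obtain ⟨a1, a2, a3, a4⟩ := hg i (by omega)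
    obtain ⟨b1, b2, b3, b4⟩ := hg j hj
    have hKi : (0 : ℝ) < (K : ℝ) ^ i * n0 := by positivity
    have hKj : (K : ℝ) * ((K : ℝ) ^ i * n0) ≤ (K : ℝ) ^ j * n0 := by
      rw [← mul_assoc, ← pow_succ']
      gcongr
      exact hij
    constructor
    · calc 2 * ((g i).1 : ℝ) ≤ 2 * (3 * ((K : ℝ) ^ i * n0)) := by gcongr
        _ ≤ K * ((K : ℝ) ^ i * n0) / Ψ := by
            rw [le_div_iff₀ hΨ0]
            have h6 : 6 * Ψ ≤ K := by nlinarith
            calc 2 * (3 * ((K : ℝ) ^ i * n0)) * Ψ = (6 * Ψ) * ((K : ℝ) ^ i * n0) := by ring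
              _ ≤ K * ((K : ℝ) ^ i * n0) := by gcongr
        _ ≤ (K : ℝ) ^ j * n0 / Ψ := by gcongr
        _ ≤ (g j).1 := b1
    · calc 4 * |((g j).1 : ℝ) * α - (g j).2 - γ| ≤ 4 * (4 * Ψ / ((K : ℝ) ^ j * n0)) := by gcongr
        _ ≤ 4 * (4 * Ψ / (K * ((K : ℝ) ^ i * n0))) := by gcongr
        _ ≤ 1 / (2 * Ψ * ((K : ℝ) ^ i * n0)) := by
            rw [← mul_div_assoc, div_le_div_iff₀ (by positivity) (by positivity)]
            calc 4 * (4 * Ψ) * (2 * Ψ * ((K : ℝ) ^ i * n0))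
                = (32 * Ψ ^ 2) * ((K : ℝ) ^ i * n0) := by ring
              _ ≤ K * ((K : ℝ) ^ i * n0) := by gcongr; nlinarith
              _ = 1 * (K * ((K : ℝ) ^ i * n0)) := by ring
        _ ≤ _ := a3

end Pool.Agent.V7H27.LC
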