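import Mathlib
import Pool.Agent.V7H27.LC.Approx

/-! One of the good denominators is good for all multiples `h`. -/

namespace Pool.Agent.V7H27.LC

open Real

lemma det_ne {α γ : ℝ} {x0 x1 x2 y0 y1 y2 : ℤ} (hx0 : 0 ≤ (x0 : ℝ)) (hx1 : 0 < (x1 : ℝ))
    (h01 : 2 * (x0 : ℝ) ≤ x1) (h12 : 2 * (x1 : ℝ) ≤ x2)
    (hd : 0 < |x0 * α - y0 - γ|)
    (e01 : 4 * |x1 * α - y1 - γ| ≤ |x0 * α - y0 - γ|)
    (e02 : 4 * |x2 * α - y2 - γ| ≤ |x0 * α - y0 - γ|) :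
    (x1 - x0) * (y2 - y0) - (x2 - x0) * (y1 - y0) ≠ 0 := by
  set d0 : ℝ := x0 * α - y0 - γ with hd0
  set d1 : ℝ := x1 * α - y1 - γ with hd1
  set d2 : ℝ := x2 * α - y2 - γ with hd2
  intro h
  have h1 : ((x1 : ℝ) - x0) * (y2 - y0) - (x2 - x0) * (y1 - y0) = 0 := by exact_mod_cast h
  have h2 : ((x2 : ℝ) - x0) * (d1 - d0) = (x1 - x0) * (d2 - d0) := by
    rw [hd0, hd1, hd2]; linear_combination h1
  have h3 : |((x2 : ℝ) - x0) * (d1 - d0)| = |((x1 : ℝ) - x0) * (d2 - d0)| := by rw [h2]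
  rw [abs_mul, abs_mul, abs_of_nonneg (by linarith : (0 : ℝ) ≤ x2 - x0),
    abs_of_nonneg (by linarith : (0 : ℝ) ≤ x1 - x0)] at h3
  have h4 : 3 / 4 * |d0| ≤ |d1 - d0| := by
    have h41 := abs_sub_abs_le_abs_sub d0 d1
    have h42 := abs_sub_comm d0 d1
    linarith
  have h5 : |d2 - d0| ≤ 5 / 4 * |d0| := by
    have := abs_sub d2 d0
    linarith
  have h6 : ((x2 : ℝ) - x0) * (3 / 4 * |d0|) ≤ (x1 - x0) * (5 / 4 * |d0|) := by
    calc ((x2 : ℝ) - x0) * (3 / 4 * |d0|) ≤ (x2 - x0) * |d1 - d0| := by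
          gcongr; linarith
      _ = (x1 - x0) * |d2 - d0| := h3
      _ ≤ (x1 - x0) * (5 / 4 * |d0|) := by gcongr; linarith
  have h7 : 2 * ((x1 : ℝ) - x0) ≤ x2 - x0 := by linarith
  have h8 : 0 < (x1 : ℝ) - x0 := by linarith
  nlinarith [mul_pos h8 hd]

lemma good_index {b : ℕ} (hb : 2 ≤ b) {α γ ζ Ψ κ C A : ℝ} {J K R H l0 T L : ℕ} {x y : ℕ → ℤ}
    (hΨ : 1 ≤ Ψ) (hκ0 : 0 < κ) (hκ : κ ≤ |ζ|) (hC : |ζ| ≤ C) (hC1 : 1 ≤ C)
    (hRH : 2 * H ≤ R) (hH : 1 ≤ H)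
    (hx : ∀ i ≤ R, (b : ℝ) ^ J / Ψ ≤ x i ∧ (x i : ℝ) ≤ 3 * (K : ℝ) ^ R * (b : ℝ) ^ J ∧
        0 < |x i * α - y i - γ| ∧ |x i * α - y i - γ| ≤ 4 * Ψ / (b : ℝ) ^ J)
    (hxy : ∀ i j, i < j → j ≤ R → 2 * (x i : ℝ) ≤ x j ∧
        4 * |x j * α - y j - γ| ≤ |x i * α - y i - γ|)
    (hA1 : 8 * Ψ ≤ A) (hA2 : 2 * Ψ ≤ A * κ) (hA3 : 3 * (K : ℝ) ^ R * (H * C) ≤ A)
    (hψ : ∀ X : ℤ, X ≠ 0 → |(X : ℝ)| ≤ 2 * A * (b : ℝ) ^ J → 1 / Ψ ≤ |(X : ℝ)| * nd (X * α))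
    (hl1 : 1 ≤ l0) (hL : L = 3 ^ (3 * T) * l0) (hJ : L ≤ J)
    (hl : 12 * A ^ 6 < (b : ℝ) ^ l0) :
    ∃ i ≤ R, ∀ h : ℕ, 1 ≤ h → h < H →
      T ≤ (badset b (h * ζ) (x i) (Finset.Ioc (J - L) J)).card := by
  have hb0 : (0 : ℝ) < b := by positivity
  have hBpos : (0 : ℝ) < (b : ℝ) ^ J := pow_pos hb0 _
  have hΨ0 : 0 < Ψ := by linarith
  have hA : 1 ≤ A := by linarith
  have hA0 : 0 < A := by linarith
  have hHR : (1 : ℝ) ≤ H := by exact_mod_cast hH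
  have hK : 3 * (K : ℝ) ^ R ≤ A := by
    refine le_trans ?_ hA3
    apply le_mul_of_one_le_right (by positivity)
    nlinarith
  by_contra hcon
  push Not at hcon
  have hstep : ∀ i : ℕ, ∃ h : ℕ, i ≤ R → (1 ≤ h ∧ h < H ∧
      (badset b (h * ζ) (x i) (Finset.Ioc (J - L) J)).card < T) := by
    intro i
    by_cases hi : i ≤ R
    · obtain ⟨h, h1, h2, h3⟩ := hcon i hi
      exact ⟨h, fun _ => ⟨h1, h2, h3⟩⟩
    · exact ⟨0, fun h => absurd h hi⟩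
  choose g hg using hstep
  obtain ⟨h, hh, hfib⟩ := Finset.exists_lt_card_fiber_of_mul_lt_card_of_maps_to
    (s := Finset.range (R + 1)) (t := Finset.Ico 1 H) (f := g) (n := 2)
    (by
      intro i hi
      rw [Finset.mem_range] at hi
      obtain ⟨h1, h2, -⟩ := hg i (by omega)
      exact Finset.mem_Ico.2 ⟨h1, h2⟩)
    (by simp; omega)
  rw [Finset.mem_Ico] at hh
  set S := (Finset.range (R + 1)).filter (fun i => g i = h) with hS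
  set f : Fin 3 ↪o ℕ := S.orderEmbOfCardLe (k := 3) hfib with hf
  have hfS : ∀ k, f k ∈ S := fun k => Finset.orderEmbOfCardLe_mem S hfib k
  have hfR : ∀ k, f k ≤ R ∧ g (f k) = h := by
    intro k
    have := hfS k
    rw [hS, Finset.mem_filter, Finset.mem_range] at this
    exact ⟨by omega, this.2⟩
  have h01 : f 0 < f 1 := f.strictMono (by decide)
  have h12 : f 1 < f 2 := f.strictMono (by decide)
  obtain ⟨a1, a2, a3, a4⟩ := hx (f 0) (hfR 0).1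
  obtain ⟨b1, b2, b3, b4⟩ := hx (f 1) (hfR 1).1
  obtain ⟨c1, c2, c3, c4⟩ := hx (f 2) (hfR 2).1
  obtain ⟨p1, p2⟩ := hxy (f 0) (f 1) h01 (hfR 1).1
  obtain ⟨q1, q2⟩ := hxy (f 1) (f 2) h12 (hfR 2).1
  obtain ⟨r1, r2⟩ := hxy (f 0) (f 2) (h01.trans h12) (hfR 2).1
  have hx0 : 0 < (x (f 0) : ℝ) := lt_of_lt_of_le (by positivity) a1
  have hx1 : 0 < (x (f 1) : ℝ) := lt_of_lt_of_le (by positivity) b1
  have hx2 : 0 < (x (f 2) : ℝ) := lt_of_lt_of_le (by positivity) c1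
  have hhR : (1 : ℝ) ≤ h := by exact_mod_cast hh.1
  have hhH : (h : ℝ) ≤ H := by exact_mod_cast hh.2.le
  have hvlow : (b : ℝ) ^ J / (2 * Ψ) ≤ (x (f 1) : ℝ) - x (f 0) := by
    have : (b : ℝ) ^ J / (2 * Ψ) = ((b : ℝ) ^ J / Ψ) / 2 := by field_simp
    rw [this]
    linarith
  have hvup : (x (f 1) : ℝ) - x (f 0) ≤ 3 * (K : ℝ) ^ R * (b : ℝ) ^ J := by linarith
  have hwup : (x (f 2) : ℝ) - x (f 0) ≤ 3 * (K : ℝ) ^ R * (b : ℝ) ^ J := by linarith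
  have hzabs : |(h : ℝ) * ζ| = h * |ζ| := by
    rw [abs_mul, abs_of_nonneg (by positivity : (0 : ℝ) ≤ h)]
  obtain ⟨k, hk⟩ := three_bad (b := b) hb (α := α) (z := h * ζ) (A := A)
    (x := fun k => x (f k)) (y := fun k => y (f k)) (J := J) (l0 := l0) (T := T) (L := L)
    hA hl1 hL hJ hl
    (by
      push_cast
      refine le_trans ?_ hvlow
      gcongr
      linarith)
    (by
      push_cast
      refine hvup.trans ?_
      gcongr)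
    (by push_cast; linarith)
    (by
      push_cast
      refine hwup.trans ?_
      gcongr)
    (by
      push_cast
      rw [hzabs]
      calc 1 / A ≤ κ / (2 * Ψ) := by
            rw [div_le_div_iff₀ hA0 (by positivity)]; linarith
        _ = κ * ((b : ℝ) ^ J / (2 * Ψ)) / (b : ℝ) ^ J := by field_simp
        _ ≤ (h * |ζ|) * ((x (f 1) : ℝ) - x (f 0)) / (b : ℝ) ^ J := by
            gcongr
            calc κ ≤ 1 * |ζ| := by linarith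
              _ ≤ h * |ζ| := by gcongr)
    (by
      push_cast
      rw [hzabs]
      calc (h * |ζ|) * ((x (f 1) : ℝ) - x (f 0)) / (b : ℝ) ^ J
          ≤ (H * C) * (3 * (K : ℝ) ^ R * (b : ℝ) ^ J) / (b : ℝ) ^ J := by
            gcongr
            linarith
        _ = 3 * (K : ℝ) ^ R * (H * C) := by field_simp
        _ ≤ A := hA3)
    (by
      push_cast
      have h1 : ((x (f 1) : ℝ) - x (f 0)) * α - (y (f 1) - y (f 0))
          = (x (f 1) * α - y (f 1) - γ) - (x (f 0) * α - y (f 0) - γ) := by ring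
      rw [h1]
      calc _ ≤ |(x (f 1) : ℝ) * α - y (f 1) - γ| + |(x (f 0) : ℝ) * α - y (f 0) - γ| :=
            abs_sub _ _
        _ ≤ 4 * Ψ / (b : ℝ) ^ J + 4 * Ψ / (b : ℝ) ^ J := add_le_add b4 a4
        _ = 8 * Ψ / (b : ℝ) ^ J := by ring
        _ ≤ A / (b : ℝ) ^ J := by gcongr)
    (by
      push_cast
      have h1 : ((x (f 2) : ℝ) - x (f 0)) * α - (y (f 2) - y (f 0))
          = (x (f 2) * α - y (f 2) - γ) - (x (f 0) * α - y (f 0) - γ) := by ring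
      rw [h1]
      calc _ ≤ |(x (f 2) : ℝ) * α - y (f 2) - γ| + |(x (f 0) : ℝ) * α - y (f 0) - γ| :=
            abs_sub _ _
        _ ≤ 4 * Ψ / (b : ℝ) ^ J + 4 * Ψ / (b : ℝ) ^ J := add_le_add c4 a4
        _ = 8 * Ψ / (b : ℝ) ^ J := by ring
        _ ≤ A / (b : ℝ) ^ J := by gcongr)
    (det_ne (α := α) (γ := γ) hx0.le hx1 p1 q1 a3 p2 r2)
    (by
      intro X hX hXA
      refine le_trans ?_ (hψ X hX hXA)
      gcongr
      linarith)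
  obtain ⟨-, -, h3⟩ := hg (f k) (hfR k).1
  rw [(hfR k).2] at h3
  exact absurd hk (not_le.2 h3)

end Pool.Agent.V7H27.LC
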