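import Mathlib
import Pool.Agent.V7H27.LC.Good
import Pool.Agent.V7H27.LC.Block

/-! The estimate for one block of windows. -/

set_option linter.unusedSectionVars false

namespace Pool.Agent.V7H27.LC

open Real MeasureTheory ProbabilityTheory
open scoped ENNReal

/-- Bounds between the parameters. -/
lemma params {b G : ℕ} (hb : 2 ≤ b) (hG : 200 ≤ G) :
    3 * ((G ^ 9 : ℕ) : ℝ) ^ (2 * G ^ 8) * (((G ^ 8 : ℕ) : ℝ) * G) ≤ (b : ℝ) ^ (28 * G ^ 9) ∧
    12 * ((b : ℝ) ^ (28 * G ^ 9)) ^ 6 < (b : ℝ) ^ (G ^ 10) ∧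
    (G : ℝ) ^ 6 * 12 ≤ (b : ℝ) ^ (28 * G ^ 9) ∧ 1 ≤ (b : ℝ) ^ (28 * G ^ 9) := by
  have hb1 : (1 : ℝ) < b := by exact_mod_cast (by omega : 1 < b)
  have hb2 : (2 : ℝ) ≤ b := by exact_mod_cast hb
  have hGb : (G : ℝ) ≤ (b : ℝ) ^ G := by
    have h1 : G < b ^ G := Nat.lt_pow_self (by omega)
    exact_mod_cast h1.le
  have hG0 : (0 : ℝ) ≤ G := by positivity
  have h9 : G ≤ G ^ 9 := Nat.le_self_pow (by norm_num) G
  have h200 : 200 ≤ G ^ 9 := hG.trans h9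
  have h3 : (3 : ℝ) ≤ (b : ℝ) ^ 2 := by nlinarith
  have h12 : (12 : ℝ) < (b : ℝ) ^ 4 := by
    have : (4 : ℝ) ≤ (b : ℝ) ^ 2 := by nlinarith
    have h4 : (b : ℝ) ^ 4 = (b : ℝ) ^ 2 * (b : ℝ) ^ 2 := by ring
    rw [h4]
    nlinarith
  refine ⟨?_, ?_, ?_, one_le_pow₀ hb1.le⟩
  · calc 3 * ((G ^ 9 : ℕ) : ℝ) ^ (2 * G ^ 8) * (((G ^ 8 : ℕ) : ℝ) * G)
        = 3 * (G : ℝ) ^ (18 * G ^ 8 + 9) := by
          push_cast
          rw [← pow_mul]
          ring
      _ ≤ (b : ℝ) ^ 2 * ((b : ℝ) ^ G) ^ (18 * G ^ 8 + 9) := by gcongr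
      _ = (b : ℝ) ^ (2 + G * (18 * G ^ 8 + 9)) := by rw [← pow_mul, ← pow_add]
      _ ≤ (b : ℝ) ^ (28 * G ^ 9) := by
          apply pow_le_pow_right₀ hb1.le
          have : G * (18 * G ^ 8 + 9) = 18 * G ^ 9 + 9 * G := by ring
          omega
  · calc 12 * ((b : ℝ) ^ (28 * G ^ 9)) ^ 6 < (b : ℝ) ^ 4 * ((b : ℝ) ^ (28 * G ^ 9)) ^ 6 := by
          gcongr
      _ = (b : ℝ) ^ (4 + 28 * G ^ 9 * 6) := by rw [← pow_mul, ← pow_add]
      _ ≤ (b : ℝ) ^ (G ^ 10) := by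
          apply pow_le_pow_right₀ hb1.le
          have : G ^ 10 = G * G ^ 9 := by ring
          rw [this]
          nlinarith
  · calc (G : ℝ) ^ 6 * 12 ≤ ((b : ℝ) ^ G) ^ 6 * (b : ℝ) ^ 4 := by gcongr
      _ = (b : ℝ) ^ (G * 6 + 4) := by rw [← pow_mul, ← pow_add]
      _ ≤ (b : ℝ) ^ (28 * G ^ 9) := by
          apply pow_le_pow_right₀ hb1.le
          omega

variable {E : Type*} [NormedAddCommGroup E] [NormedSpace ℝ E] [MeasurableSpace E] [BorelSpace E]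
  [SecondCountableTopology E]
variable {Ω : Type*} {mΩ : MeasurableSpace Ω} {P : Measure Ω} [IsProbabilityMeasure P]

/-- The pairs (point, window) for which no good denominator works. -/
def Cset (F : E → ℝ) (w : E) (G : ℕ) (x : ℕ → ℤ) (t : ℝ) : Set (E × E) :=
  {q | 1 / (G : ℝ) ≤ |fderiv ℝ F q.1 w| ∧ |fderiv ℝ F q.1 w| ≤ G ∧
    ∀ i ≤ 2 * G ^ 8, 1 / (G : ℝ) ^ 4 ≤ nd (x i * (F q.1 + fderiv ℝ F q.1 q.2) - t)}

lemma measurableSet_Cset {F : E → ℝ} (hF : Continuous F) (hF' : Continuous (fderiv ℝ F)) (w : E)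
    (G : ℕ) (x : ℕ → ℤ) (t : ℝ) : MeasurableSet (Cset F w G x t) := by
  have h1 : Continuous (fun q : E × E => |fderiv ℝ F q.1 w|) :=
    ((hF'.comp continuous_fst).clm_apply continuous_const).abs
  have h2 : ∀ i, Continuous (fun q : E × E =>
      nd (x i * (F q.1 + fderiv ℝ F q.1 q.2) - t)) := by
    intro i
    apply continuous_nd.comp
    exact ((continuous_const.mul ((hF.comp continuous_fst).add
      ((hF'.comp continuous_fst).clm_apply continuous_snd))).sub continuous_const)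
  have h3 : IsClosed (Cset F w G x t) := by
    have : Cset F w G x t = {q | 1 / (G : ℝ) ≤ |fderiv ℝ F q.1 w|} ∩
        {q | |fderiv ℝ F q.1 w| ≤ G} ∩ ⋂ i ≤ 2 * G ^ 8,
          {q | 1 / (G : ℝ) ^ 4 ≤ nd (x i * (F q.1 + fderiv ℝ F q.1 q.2) - t)} := by
      ext q
      simp only [Cset, Set.mem_ofPred_eq, Set.mem_inter_iff, Set.mem_iInter]
      tauto
    rw [this]
    refine IsClosed.inter (IsClosed.inter ?_ ?_) ?_
    · exact isClosed_le continuous_const h1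
    · exact isClosed_le h1 continuous_const
    · exact isClosed_biInter (fun i _ => isClosed_le continuous_const (h2 i))
  exact h3.measurableSet

lemma fixedT {b : ℕ} (hb : 2 ≤ b) {ξ : ℕ → Ω → E} (hm : ∀ j, Measurable (ξ j))
    (hi : iIndepFun ξ P) {u v : E} {p : ℝ} (hp : 0 < p)
    (hu : ∀ j, p ≤ P.real {ω | ξ j ω = u}) (hv : ∀ j, p ≤ P.real {ω | ξ j ω = v})
    {F : E → ℝ} (hF : Continuous F) (hF' : Continuous (fderiv ℝ F)) {α γ : ℝ} {G T L : ℕ}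
    (hG : 200 ≤ G) (hρ : (1 - p / ((b : ℝ) + 1) ^ 2) ^ T ≤ 1 / (4 * (G : ℝ) ^ 8))
    (hL : L = 3 ^ (3 * T) * G ^ 10)
    (hψ : ∀ X : ℤ, X ≠ 0 → |(X : ℝ)| ≤ (b : ℝ) ^ (12 * L * G ^ 16) →
      1 / (G : ℝ) ≤ |(X : ℝ)| * nd (X * α)) :
    ∃ x y : ℕ → ℕ → ℤ, (∀ s < G ^ 16, ∀ i ≤ 2 * G ^ 8,
        (b : ℝ) ^ (8 * L + 2 * L * s) / G ≤ x s i ∧
        (x s i : ℝ) ≤ (b : ℝ) ^ (28 * G ^ 9) * (b : ℝ) ^ (8 * L + 2 * L * s) ∧
        (x s i : ℝ) * |x s i * α - y s i - γ| ≤ 12 * G) ∧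
      ∀ t : ℝ, P {ω | ∀ s < G ^ 16, (wsum b ξ (Finset.range (7 * L + 2 * L * s)) ω,
        wsum b ξ (Finset.Ico (7 * L + 2 * L * s) (9 * L + 2 * L * s)) ω)
          ∈ Cset F (u - v) G (x s) t} ≤ (ENNReal.ofReal (1 - 1 / (2 * (G : ℝ) ^ 8))) ^ (G ^ 16) := by
  have hb1 : (1 : ℝ) < b := by exact_mod_cast (by omega : 1 < b)
  have hG1 : (1 : ℝ) ≤ G := by exact_mod_cast (by omega : 1 ≤ G)
  have hG0 : (0 : ℝ) < G := by linarith
  have hG200 : (200 : ℝ) ≤ G := by exact_mod_cast hG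
  obtain ⟨hA3, hA12, hA6, hA1⟩ := params hb hG
  set A : ℝ := (b : ℝ) ^ (28 * G ^ 9) with hA
  have hA0 : 0 < A := by linarith
  have hT3 : 1 ≤ 3 ^ (3 * T) := Nat.one_le_pow _ _ (by norm_num)
  have hLG : G ^ 10 ≤ L := by rw [hL]; exact Nat.le_mul_of_pos_left _ hT3
  have hL1 : 1 ≤ L := le_trans (Nat.one_le_pow _ _ (by omega)) hLG
  -- the total size
  have hsize : ∀ s < G ^ 16, 2 * A * (b : ℝ) ^ (8 * L + 2 * L * s)
      ≤ (b : ℝ) ^ (12 * L * G ^ 16) := by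
    intro s hs
    have h1 : (2 : ℝ) ≤ (b : ℝ) ^ 1 := by
      rw [pow_one]; exact_mod_cast hb
    calc 2 * A * (b : ℝ) ^ (8 * L + 2 * L * s)
        ≤ (b : ℝ) ^ 1 * (b : ℝ) ^ (28 * G ^ 9) * (b : ℝ) ^ (8 * L + 2 * L * s) := by gcongr
      _ = (b : ℝ) ^ (1 + 28 * G ^ 9 + (8 * L + 2 * L * s)) := by rw [← pow_add, ← pow_add]
      _ ≤ (b : ℝ) ^ (12 * L * G ^ 16) := by
          apply pow_le_pow_right₀ hb1.le
          have h2 : 28 * G ^ 9 + 1 ≤ L := by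
            refine le_trans ?_ hLG
            have : G ^ 10 = G * G ^ 9 := by ring
            have h4 : 1 ≤ G ^ 9 := Nat.one_le_pow _ _ (by omega)
            rw [this]
            nlinarith
          have h5 : 1 ≤ G ^ 16 := Nat.one_le_pow _ _ (by omega)
          have h6 : L * s ≤ L * G ^ 16 := Nat.mul_le_mul_left _ hs.le
          have h7 : L ≤ L * G ^ 16 := Nat.le_mul_of_pos_right _ h5
          have e1 : 12 * L * G ^ 16 = 12 * (L * G ^ 16) := by ring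
          have e2 : 2 * L * s = 2 * (L * s) := by ring
          rw [e1, e2]
          omega
  -- good denominators for every window
  have hstep : ∀ s : ℕ, ∃ xy : (ℕ → ℤ) × (ℕ → ℤ), s < G ^ 16 →
      ((∀ i ≤ 2 * G ^ 8, (b : ℝ) ^ (8 * L + 2 * L * s) / G ≤ xy.1 i ∧
          (xy.1 i : ℝ) ≤ 3 * ((G ^ 9 : ℕ) : ℝ) ^ (2 * G ^ 8) * (b : ℝ) ^ (8 * L + 2 * L * s) ∧
          0 < |xy.1 i * α - xy.2 i - γ| ∧
          |xy.1 i * α - xy.2 i - γ| ≤ 4 * G / (b : ℝ) ^ (8 * L + 2 * L * s) ∧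
          (xy.1 i : ℝ) * |xy.1 i * α - xy.2 i - γ| ≤ 12 * G) ∧
        ∀ i j, i < j → j ≤ 2 * G ^ 8 → 2 * (xy.1 i : ℝ) ≤ xy.1 j ∧
          4 * |xy.1 j * α - xy.2 j - γ| ≤ |xy.1 i * α - xy.2 i - γ|) := by
    intro s
    by_cases hs : s < G ^ 16
    swap
    · exact ⟨(fun _ => 0, fun _ => 0), fun h => absurd h hs⟩
    have h1 := approx_many (α := α) (γ := γ) (Ψ := (G : ℝ)) (n0 := b ^ (8 * L + 2 * L * s))
      (K := G ^ 9) (R := 2 * G ^ 8) (Nat.one_le_pow _ _ (by omega)) hG1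
      (by
        push_cast
        have : (G : ℝ) ^ 9 = (G : ℝ) ^ 7 * (G : ℝ) ^ 2 := by ring
        rw [this]
        have h3 : (100 : ℝ) ≤ (G : ℝ) ^ 7 := by
          calc (100 : ℝ) ≤ G := by linarith
            _ = (G : ℝ) ^ 1 := (pow_one _).symm
            _ ≤ (G : ℝ) ^ 7 := pow_le_pow_right₀ hG1 (by norm_num)
        gcongr)
      (by
        intro X hX hXn
        apply hψ X hX
        refine hXn.trans (le_trans ?_ (hsize s hs))
        have h2 : ((G ^ 9 : ℕ) : ℝ) ^ (2 * G ^ 8) ≤ 2 * A := by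
          have h3 : (1 : ℝ) ≤ ((G ^ 8 : ℕ) : ℝ) * G := by
            push_cast
            have : (1 : ℝ) ≤ (G : ℝ) ^ 8 := one_le_pow₀ hG1
            nlinarith
          have h4 : (0 : ℝ) < ((G ^ 9 : ℕ) : ℝ) ^ (2 * G ^ 8) := by positivity
          have h5 : 3 * ((G ^ 9 : ℕ) : ℝ) ^ (2 * G ^ 8) ≤ A := by
            refine le_trans ?_ hA3
            exact le_mul_of_one_le_right (by positivity) h3
          linarith
        push_cast at h2 ⊢
        gcongr)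
    obtain ⟨x, y, h2, h3⟩ := h1
    refine ⟨(x, y), fun _ => ⟨?_, h3⟩⟩
    intro i hi
    have := h2 i hi
    push_cast at this ⊢
    exact this
  choose xy hxy using hstep
  refine ⟨fun s => (xy s).1, fun s => (xy s).2, ?_, ?_⟩
  · intro s hs i hi
    obtain ⟨h1, h2, -, -, h5⟩ := (hxy s hs).1 i hi
    refine ⟨h1, ?_, h5⟩
    refine h2.trans ?_
    have h3 : (1 : ℝ) ≤ ((G ^ 8 : ℕ) : ℝ) * G := by
      push_cast
      have : (1 : ℝ) ≤ (G : ℝ) ^ 8 := one_le_pow₀ hG1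
      nlinarith
    have h5 : 3 * ((G ^ 9 : ℕ) : ℝ) ^ (2 * G ^ 8) ≤ A := by
      refine le_trans ?_ hA3
      exact le_mul_of_one_le_right (by positivity) h3
    gcongr
  · intro t
    refine block (n := fun s => 7 * L + 2 * L * s) (n' := fun s => 9 * L + 2 * L * s) hm hi
      (fun s => by show 7 * L + 2 * L * s ≤ 9 * L + 2 * L * s; omega)
      (fun s => by
        show 9 * L + 2 * L * s ≤ 7 * L + 2 * L * (s + 1)
        have : 2 * L * (s + 1) = 2 * L * s + 2 * L := by ring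
        omega)
      (fun s => measurableSet_Cset hF hF' _ _ _ _) ?_
    intro s hs a
    -- a fixed point `a`
    set J := 8 * L + 2 * L * s with hJ
    have hJL : L ≤ J := by omega
    have eJ1 : 7 * L + 2 * L * s = J - L := by omega
    have eJ2 : 9 * L + 2 * L * s = J + L := by omega
    rw [eJ1, eJ2]
    by_cases ha : 1 / (G : ℝ) ≤ |fderiv ℝ F a (u - v)| ∧ |fderiv ℝ F a (u - v)| ≤ G
    swap
    · have hempty : {ω : Ω | (a, wsum b ξ (Finset.Ico (J - L) (J + L)) ω)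
          ∈ Cset F (u - v) G (xy s).1 t} = ∅ := by
        ext ω
        simp only [Cset, Set.mem_ofPred_eq, Set.mem_empty_iff_false, iff_false]
        intro h
        exact ha ⟨h.1, h.2.1⟩
      rw [hempty, measure_empty]
      exact bot_le
    obtain ⟨i, hiR, hgood⟩ := good_index (b := b) hb (α := α) (γ := γ)
      (ζ := fderiv ℝ F a (u - v)) (Ψ := (G : ℝ)) (κ := 1 / (G : ℝ)) (C := (G : ℝ)) (A := A)
      (J := J) (K := G ^ 9) (R := 2 * G ^ 8) (H := G ^ 8) (l0 := G ^ 10) (T := T) (L := L)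
      (x := (xy s).1) (y := (xy s).2) hG1 (by positivity) ha.1 ha.2 hG1 le_rfl
      (Nat.one_le_pow _ _ (by omega))
      (fun i hi => ⟨((hxy s hs).1 i hi).1, ((hxy s hs).1 i hi).2.1, ((hxy s hs).1 i hi).2.2.1,
        ((hxy s hs).1 i hi).2.2.2.1⟩)
      (hxy s hs).2
      (by
        have h1 : (G : ℝ) ≤ (G : ℝ) ^ 6 := by
          calc (G : ℝ) = (G : ℝ) ^ 1 := (pow_one _).symm
            _ ≤ _ := pow_le_pow_right₀ hG1 (by norm_num)
        linarith)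
      (by
        have h1 : (G : ℝ) * G ≤ (G : ℝ) ^ 6 := by
          calc (G : ℝ) * G = (G : ℝ) ^ 2 := by ring
            _ ≤ _ := pow_le_pow_right₀ hG1 (by norm_num)
        rw [mul_one_div, le_div_iff₀ hG0]
        linarith)
      hA3
      (fun X hX hXA => hψ X hX (hXA.trans (hsize s hs)))
      (Nat.one_le_pow _ _ (by omega)) hL hJL hA12
    have hε : (0 : ℝ) < 1 / (G : ℝ) ^ 4 := by positivity
    have hHε : (1 : ℝ) ≤ ((G ^ 8 : ℕ) : ℝ) * (1 / (G : ℝ) ^ 4) ^ 2 := by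
      push_cast
      apply le_of_eq
      field_simp
    have hhit := hit (P := P) hb hm hi hp hu hv (fderiv ℝ F a) (F a) ((xy s).1 i) hJL
      (H := G ^ 8) (T := T) (Nat.one_le_pow _ _ (by omega)) hgood (by push_cast; exact hρ) hε hHε t
    set Sgood : Set Ω := {ω | nd ((xy s).1 i * (F a + fderiv ℝ F a
      (wsum b ξ (Finset.Ico (J - L) (J + L)) ω)) - t) < 1 / (G : ℝ) ^ 4} with hSgood
    have hwm : Measurable (wsum b ξ (Finset.Ico (J - L) (J + L))) :=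
      (measurable_wsum b ξ _ (subset_refl _)).mono (sg_le hm _) le_rfl
    have hSm : MeasurableSet Sgood := by
      apply measurableSet_lt _ measurable_const
      exact continuous_nd.measurable.comp
        (((((fderiv ℝ F a).continuous.measurable.comp hwm).const_add _).const_mul _).sub_const _)
    have hsub : {ω : Ω | (a, wsum b ξ (Finset.Ico (J - L) (J + L)) ω)
          ∈ Cset F (u - v) G (xy s).1 t} ⊆ Sgoodᶜ := by
      intro ω hω
      simp only [Cset, Set.mem_ofPred_eq] at hω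
      simp only [hSgood, Set.mem_compl_iff, Set.mem_ofPred_eq, not_lt]
      exact hω.2.2 i hiR
    calc P {ω : Ω | (a, wsum b ξ (Finset.Ico (J - L) (J + L)) ω)
          ∈ Cset F (u - v) G (xy s).1 t} ≤ P Sgoodᶜ := measure_mono hsub
      _ = ENNReal.ofReal (P.real Sgoodᶜ) := by rw [ofReal_measureReal]
      _ ≤ ENNReal.ofReal (1 - 1 / (2 * (G : ℝ) ^ 8)) := by
          apply ENNReal.ofReal_le_ofReal
          rw [probReal_compl_eq_one_sub hSm]
          push_cast at hhit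
          linarith

end Pool.Agent.V7H27.LC
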