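import Mathlib
import Pool.Agent.V7H27.LC.FixedT

/-! The tails of the digit expansion and the second order Taylor estimate. -/

set_option linter.unusedSectionVars false

namespace Pool.Agent.V7H27.LC

open Real MeasureTheory ProbabilityTheory Filter Topology

variable {E : Type*} [NormedAddCommGroup E] [NormedSpace ℝ E] [CompleteSpace E]
variable {Ω : Type*}

/-- The random point. -/
noncomputable def pt (b : ℕ) (ξ : ℕ → Ω → E) (ω : Ω) : E :=
  ∑' j, ((b : ℝ) ^ (j + 1))⁻¹ • ξ j ω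

lemma summable_pt {b : ℕ} (hb : 2 ≤ b) {ξ : ℕ → Ω → E} {M : ℝ} (hM : ∀ j ω, ‖ξ j ω‖ ≤ M) (ω : Ω) :
    Summable (fun j => ((b : ℝ) ^ (j + 1))⁻¹ • ξ j ω) := by
  have hb1 : (1 : ℝ) < b := by exact_mod_cast (by omega : 1 < b)
  have h1 : Summable (fun j : ℕ => ((b : ℝ)⁻¹) ^ (j + 1) * M) :=
    ((summable_nat_add_iff 1).2
      (summable_geometric_of_lt_one (by positivity) (inv_lt_one_of_one_lt₀ hb1))).mul_right M
  refine Summable.of_norm_bounded h1 (fun j => ?_)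
  rw [norm_smul, norm_inv, norm_pow, Real.norm_natCast, inv_pow]
  gcongr
  exact hM j ω

lemma tail_le {b : ℕ} (hb : 2 ≤ b) {ξ : ℕ → Ω → E} {M : ℝ} (hM : ∀ j ω, ‖ξ j ω‖ ≤ M) (ω : Ω)
    (n : ℕ) : ‖pt b ξ ω - wsum b ξ (Finset.range n) ω‖ ≤ M / (b : ℝ) ^ n := by
  have hb1 : (1 : ℝ) < b := by exact_mod_cast (by omega : 1 < b)
  have hb2 : (2 : ℝ) ≤ b := by exact_mod_cast hb
  have hM0 : 0 ≤ M := (norm_nonneg _).trans (hM 0 ω)
  have hs := summable_pt hb hM ω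
  have h1 : pt b ξ ω - wsum b ξ (Finset.range n) ω
      = ∑' j, ((b : ℝ) ^ (j + n + 1))⁻¹ • ξ (j + n) ω := by
    unfold pt wsum
    rw [← hs.sum_add_tsum_nat_add n]
    simp
  rw [h1]
  have hgeo : HasSum (fun j : ℕ => ((b : ℝ)⁻¹) ^ j) (1 - (b : ℝ)⁻¹)⁻¹ :=
    hasSum_geometric_of_lt_one (by positivity) (inv_lt_one_of_one_lt₀ hb1)
  have h2 : HasSum (fun j : ℕ => M / (b : ℝ) ^ (n + 1) * ((b : ℝ)⁻¹) ^ j)
      (M / (b : ℝ) ^ (n + 1) * (1 - (b : ℝ)⁻¹)⁻¹) := hgeo.mul_left _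
  refine (tsum_of_norm_bounded h2 (fun j => ?_)).trans ?_
  · rw [norm_smul, norm_inv, norm_pow, Real.norm_natCast]
    calc ((b : ℝ) ^ (j + n + 1))⁻¹ * ‖ξ (j + n) ω‖ ≤ ((b : ℝ) ^ (j + n + 1))⁻¹ * M := by
          gcongr
          exact hM _ _
      _ = M / (b : ℝ) ^ (n + 1) * ((b : ℝ)⁻¹) ^ j := by
          rw [inv_pow, show j + n + 1 = (n + 1) + j by ring, pow_add]
          field_simp
  · have h3 : (1 - (b : ℝ)⁻¹)⁻¹ ≤ b := by
      rw [inv_le_comm₀ (by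
        rw [sub_pos]; exact inv_lt_one_of_one_lt₀ hb1) (by linarith)]
      have : (b : ℝ)⁻¹ ≤ 1 / 2 := by
        rw [one_div]
        gcongr
      linarith
    calc M / (b : ℝ) ^ (n + 1) * (1 - (b : ℝ)⁻¹)⁻¹ ≤ M / (b : ℝ) ^ (n + 1) * b := by gcongr
      _ = M / (b : ℝ) ^ n := by
          rw [pow_succ]
          field_simp

lemma wsum_split (b : ℕ) (ξ : ℕ → Ω → E) {n n' : ℕ} (h : n ≤ n') (ω : Ω) :
    wsum b ξ (Finset.range n') ω
      = wsum b ξ (Finset.range n) ω + wsum b ξ (Finset.Ico n n') ω := by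
  unfold wsum
  rw [Finset.sum_range_add_sum_Ico _ h]

lemma tendsto_wsum {b : ℕ} (hb : 2 ≤ b) {ξ : ℕ → Ω → E} {M : ℝ} (hM : ∀ j ω, ‖ξ j ω‖ ≤ M)
    (ω : Ω) : Tendsto (fun n => wsum b ξ (Finset.range n) ω) atTop (𝓝 (pt b ξ ω)) :=
  (summable_pt hb hM ω).hasSum.tendsto_sum_nat

/-- Local second order Taylor estimate. -/
lemma taylor {F : E → ℝ} (hF : ContDiff ℝ 2 F) (X : E) :
    ∃ C : ℝ, 0 ≤ C ∧ ∀ᶠ a in 𝓝 X, |F X - F a - fderiv ℝ F a (X - a)| ≤ C * ‖X - a‖ ^ 2 := by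
  have hF1 : ContDiff ℝ 1 (fderiv ℝ F) := hF.fderiv_right (by norm_num)
  obtain ⟨K, t, ht, hK⟩ := hF1.contDiffAt.exists_lipschitzOnWith (x := X)
  obtain ⟨r, hr, hball⟩ := Metric.mem_nhds_iff.1 ht
  refine ⟨K, K.2, ?_⟩
  filter_upwards [Metric.ball_mem_nhds X hr] with a ha
  have hd : Differentiable ℝ F := hF.differentiable (by norm_num)
  have hconv : Convex ℝ (segment ℝ a X) := convex_segment a X
  have hseg : segment ℝ a X ⊆ Metric.ball X r :=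
    (convex_ball X r).segment_subset ha (Metric.mem_ball_self hr)
  have h1 : ∀ y ∈ segment ℝ a X, ‖fderiv ℝ F y - fderiv ℝ F a‖ ≤ K * ‖X - a‖ := by
    intro y hy
    have h2 := hK.dist_le_mul y (hball (hseg hy)) a (hball ha)
    rw [dist_eq_norm, dist_eq_norm] at h2
    refine h2.trans ?_
    gcongr
    obtain ⟨s, t', hs, ht', hst, rfl⟩ := hy
    have h3 : s • a + t' • X - a = t' • (X - a) := by
      have : s = 1 - t' := by linarith
      rw [this, sub_smul, one_smul, smul_sub]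
      abel
    rw [h3, norm_smul, Real.norm_eq_abs, abs_of_nonneg ht']
    have h4 : t' ≤ 1 := by linarith
    exact mul_le_of_le_one_left (norm_nonneg _) h4
  have h5 := hconv.norm_image_sub_le_of_norm_fderiv_le' (f := F) (φ := fderiv ℝ F a)
    (fun y _ => hd y) h1 (left_mem_segment ℝ a X) (right_mem_segment ℝ a X)
  rw [Real.norm_eq_abs] at h5
  refine h5.trans (le_of_eq ?_)
  ring

end Pool.Agent.V7H27.LC
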