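import Mathlib
import Pool.Agent.V7H27.LC.Tail
import Pool.Agent.V7H27.LC.Params

/-! Littlewood's problem with a power of the logarithm on homogeneous self-similar sets. -/

set_option linter.unusedSectionVars false

namespace Pool.Agent.V7H27.LC

open Real MeasureTheory ProbabilityTheory Filter Topology
open scoped ENNReal

lemma nd_neg (x : ℝ) : nd (-x) = nd x := by
  apply le_antisymm
  · have h := nd_le (-x) (-round x)
    have h2 : |-x - ((-round x : ℤ) : ℝ)| = nd x := by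
      unfold nd
      rw [← abs_neg]
      congr 1
      push_cast
      ring
    rw [h2] at h
    exact h
  · have h := nd_le x (-round (-x))
    have h2 : |x - ((-round (-x) : ℤ) : ℝ)| = nd (-x) := by
      unfold nd
      rw [← abs_neg]
      congr 1
      push_cast
      ring
    rw [h2] at h
    exact h

/-- From the assumption on `α` for large `q` to all integers in a range. -/
lemma psi_all {α c : ℝ} (hα : ∀ᶠ q : ℕ in atTop, 1 ≤ (q : ℝ) * (log q) ^ c * nd (q * α))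
    (hc : 0 < c) : ∃ κ > 0, ∀ Y : ℝ, 1 ≤ Y → ∀ G : ℝ, 0 < G → 1 / κ ≤ G → Y ^ c ≤ G →
      ∀ X : ℤ, X ≠ 0 → log |(X : ℝ)| ≤ Y → 1 / G ≤ |(X : ℝ)| * nd (X * α) := by
  obtain ⟨Q, hQ⟩ := eventually_atTop.1 hα
  have hpos : ∀ q : ℕ, 1 ≤ q → 0 < (q : ℝ) * nd (q * α) := by
    intro q hq
    have hq0 : (0 : ℝ) < q := by exact_mod_cast hq
    refine mul_pos hq0 ?_
    rcases (nd_nonneg ((q : ℝ) * α)).lt_or_eq with h | h
    · exact h
    · exfalso
      -- then all multiples are integers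
      have h1 : (q : ℝ) * α = round ((q : ℝ) * α) := by
        have : |(q : ℝ) * α - round ((q : ℝ) * α)| = 0 := h.symm
        linarith [abs_eq_zero.1 this]
      have h2 := hQ (q * Q) (Nat.le_mul_of_pos_left _ hq)
      have h3 : nd (((q * Q : ℕ) : ℝ) * α) = 0 := by
        have h4 : ((q * Q : ℕ) : ℝ) * α = (((Q : ℤ) * round ((q : ℝ) * α) : ℤ) : ℝ) := by
          have h5 : ((q * Q : ℕ) : ℝ) * α = (Q : ℝ) * ((q : ℝ) * α) := by push_cast; ring
          rw [h5, Int.cast_mul, Int.cast_natCast]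
          congr 1
        rw [h4]
        unfold nd
        rw [round_intCast, sub_self, abs_zero]
      rw [h3, mul_zero] at h2
      linarith
  -- the minimum over small q
  have hmin : ∃ κ > 0, ∀ q : ℕ, 1 ≤ q → q < Q + 1 → κ ≤ (q : ℝ) * nd (q * α) := by
    induction (Q + 1) with
    | zero => exact ⟨1, one_pos, fun q _ h => absurd h (by omega)⟩
    | succ N ih =>
      obtain ⟨κ, hκ, h⟩ := ih
      by_cases hN : 1 ≤ N
      · refine ⟨min κ ((N : ℝ) * nd (N * α)), lt_min hκ (hpos N hN), fun q h1 h2 => ?_⟩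
        rcases Nat.lt_succ_iff_lt_or_eq.1 h2 with h3 | h3
        · exact (min_le_left _ _).trans (h q h1 h3)
        · rw [h3]; exact min_le_right _ _
      · exact ⟨1, one_pos, fun q h1 h2 => absurd h2 (by omega)⟩
  obtain ⟨κ, hκ, hκQ⟩ := hmin
  refine ⟨κ, hκ, ?_⟩
  intro Y hY G hG hG1 hG2 X hX hXY
  -- pass to the natural number |X|
  have hXn : |(X : ℝ)| = ((X.natAbs : ℕ) : ℝ) := by
    rw [Nat.cast_natAbs, Int.cast_abs]
  have hnd : nd (X * α) = nd ((X.natAbs : ℕ) * α) := by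
    rcases Int.natAbs_eq X with h | h
    · conv_lhs => rw [h]
      simp
    · conv_lhs => rw [h]
      rw [Int.cast_neg, Int.cast_natCast, neg_mul, nd_neg]
  rw [hnd, hXn]
  have hn1 : 1 ≤ X.natAbs := Nat.one_le_iff_ne_zero.2 (Int.natAbs_ne_zero.2 hX)
  rw [hXn] at hXY
  set n := X.natAbs with hn
  have hn0 : (1 : ℝ) ≤ n := by exact_mod_cast hn1
  by_cases hnQ : n < Q + 1
  · refine le_trans ?_ (hκQ n hn1 hnQ)
    rw [one_div_le hG hκ]
    exact hG1
  · have h1 := hQ n (by omega)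
    have h2 : (log n) ^ c ≤ G := by
      refine le_trans ?_ hG2
      exact Real.rpow_le_rpow (Real.log_nonneg hn0) hXY hc.le
    rw [div_le_iff₀ hG]
    calc 1 ≤ (n : ℝ) * (log n) ^ c * nd (n * α) := h1
      _ = (n : ℝ) * nd (n * α) * (log n) ^ c := by ring
      _ ≤ (n : ℝ) * nd (n * α) * G := by
          have := nd_nonneg ((n : ℝ) * α)
          gcongr

variable {E : Type*} [NormedAddCommGroup E] [NormedSpace ℝ E] [CompleteSpace E]
  [MeasurableSpace E] [BorelSpace E] [SecondCountableTopology E]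
variable {Ω : Type*} {mΩ : MeasurableSpace Ω} {P : Measure Ω} [IsProbabilityMeasure P]

lemma main_aux {b : ℕ} (hb : 2 ≤ b) {p c : ℝ} (hp : 0 < p) (hc : 0 < c) {G : ℕ → ℕ}
    (h200 : ∀ᶠ T in atTop, 200 ≤ G T)
    (hρ : ∀ᶠ T : ℕ in atTop, (1 - p / ((b : ℝ) + 1) ^ 2) ^ T ≤ 1 / (4 * (G T : ℝ) ^ 8))
    (hlog : ∀ᶠ T : ℕ in atTop, (12 * 27 ^ T * (G T : ℝ) ^ 26 * b) ^ c ≤ (G T : ℝ))
    (hsum : Summable fun T => 4 / (G T : ℝ) ^ 4)
    (hGt : Tendsto (fun T => (G T : ℝ)) atTop atTop)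
    {ξ : ℕ → Ω → E} (hm : ∀ j, Measurable (ξ j)) (hi : iIndepFun ξ P)
    {M : ℝ} (hM : ∀ j ω, ‖ξ j ω‖ ≤ M) {u v : E}
    (hu : ∀ j, p ≤ P.real {ω | ξ j ω = u}) (hv : ∀ j, p ≤ P.real {ω | ξ j ω = v})
    {α γ : ℝ} (hα : ∀ᶠ q : ℕ in atTop, 1 ≤ (q : ℝ) * (log q) ^ c * nd (q * α))
    {F : E → ℝ} (hF : ContDiff ℝ 2 F) :
    ∀ᵐ ω ∂P, fderiv ℝ F (pt b ξ ω) (u - v) ≠ 0 → ∀ t : ℝ, ∃ᶠ q : ℕ in atTop,
      (q : ℝ) * (log q) ^ c * nd (q * α - γ) * nd (q * F (pt b ξ ω) - t) < 1 := by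
  have hb1 : (1 : ℝ) < b := by exact_mod_cast (by omega : 1 < b)
  have hb2 : (2 : ℝ) ≤ b := by exact_mod_cast hb
  have hFc : Continuous F := hF.continuous
  have hF' : Continuous (fderiv ℝ F) := hF.continuous_fderiv (by norm_num)
  have hM0 : 0 ≤ M := by
    by_cases hne : Nonempty Ω
    · obtain ⟨ω⟩ := hne
      exact (norm_nonneg _).trans (hM 0 ω)
    · exfalso
      have : (Set.univ : Set Ω) = ∅ := Set.univ_eq_empty_iff.2 (not_nonempty_iff.1 hne)
      have h1 : P Set.univ = 1 := measure_univ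
      rw [this, measure_empty] at h1
      exact zero_ne_one h1
  obtain ⟨κ, hκ, hψ0⟩ := psi_all hα hc
  set LL : ℕ → ℕ := fun T => 3 ^ (3 * T) * G T ^ 10 with hLL
  set Y : ℕ → ℝ := fun T => 12 * 27 ^ T * (G T : ℝ) ^ 26 * b with hY
  -- the good parameters
  have hgoodT : ∀ᶠ T in atTop, 200 ≤ G T ∧
      (1 - p / ((b : ℝ) + 1) ^ 2) ^ T ≤ 1 / (4 * (G T : ℝ) ^ 8) ∧
      Y T ^ c ≤ (G T : ℝ) ∧ 1 / κ ≤ (G T : ℝ) := by
    filter_upwards [h200, hρ, hlog, hGt.eventually_ge_atTop (1 / κ)] with T h1 h2 h3 h4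
    exact ⟨h1, h2, h3, h4⟩
  have hlogY : ∀ T, 12 * LL T * G T ^ 16 * Real.log b ≤ Y T := by
    intro T
    have h1 : Real.log b ≤ b := (Real.log_le_sub_one_of_pos (by linarith)).trans (by linarith)
    simp only [hLL, hY]
    push_cast
    have h2 : (3 : ℝ) ^ (3 * T) = 27 ^ T := by rw [pow_mul]; norm_num
    rw [h2]
    calc 12 * (27 ^ T * (G T : ℝ) ^ 10) * (G T : ℝ) ^ 16 * Real.log b
        = 12 * 27 ^ T * (G T : ℝ) ^ 26 * Real.log b := by ring
      _ ≤ 12 * 27 ^ T * (G T : ℝ) ^ 26 * b := by gcongr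
  have hψ : ∀ T, 200 ≤ G T → Y T ^ c ≤ (G T : ℝ) → 1 / κ ≤ (G T : ℝ) →
      ∀ X : ℤ, X ≠ 0 → |(X : ℝ)| ≤ (b : ℝ) ^ (12 * LL T * G T ^ 16) →
      1 / (G T : ℝ) ≤ |(X : ℝ)| * nd (X * α) := by
    intro T h1 h2 h3 X hX hXb
    have hG1 : (1 : ℝ) ≤ G T := by exact_mod_cast (by omega : 1 ≤ G T)
    have hY1 : 1 ≤ Y T := by
      simp only [hY]
      have e1 : (1 : ℝ) ≤ 27 ^ T := one_le_pow₀ (by norm_num)
      have e2 : (1 : ℝ) ≤ (G T : ℝ) ^ 26 := one_le_pow₀ hG1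
      calc (1 : ℝ) ≤ 12 * 1 * 1 * 2 := by norm_num
        _ ≤ 12 * 27 ^ T * (G T : ℝ) ^ 26 * b := by gcongr
    refine hψ0 (Y T) hY1 (G T) (by linarith) h3 h2 X hX ?_
    refine le_trans ?_ (hlogY T)
    have hX0 : (0 : ℝ) < |(X : ℝ)| := abs_pos.2 (by exact_mod_cast hX)
    calc Real.log |(X : ℝ)| ≤ Real.log ((b : ℝ) ^ (12 * LL T * G T ^ 16)) :=
          Real.log_le_log hX0 hXb
      _ = ((12 * LL T * G T ^ 16 : ℕ) : ℝ) * Real.log b := Real.log_pow _ _
      _ = 12 * LL T * G T ^ 16 * Real.log b := by push_cast; ring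
  -- the approximations and the estimates
  have hstep : ∀ T : ℕ, ∃ xy : (ℕ → ℕ → ℤ) × (ℕ → ℕ → ℤ),
      (200 ≤ G T ∧ (1 - p / ((b : ℝ) + 1) ^ 2) ^ T ≤ 1 / (4 * (G T : ℝ) ^ 8) ∧
        Y T ^ c ≤ (G T : ℝ) ∧ 1 / κ ≤ (G T : ℝ)) →
      ((∀ s < G T ^ 16, ∀ i ≤ 2 * G T ^ 8,
        (b : ℝ) ^ (8 * LL T + 2 * LL T * s) / G T ≤ xy.1 s i ∧
        (xy.1 s i : ℝ) ≤ (b : ℝ) ^ (28 * G T ^ 9) * (b : ℝ) ^ (8 * LL T + 2 * LL T * s) ∧
        (xy.1 s i : ℝ) * |xy.1 s i * α - xy.2 s i - γ| ≤ 12 * G T) ∧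
      ∀ t : ℝ, P {ω | ∀ s < G T ^ 16, (wsum b ξ (Finset.range (7 * LL T + 2 * LL T * s)) ω,
        wsum b ξ (Finset.Ico (7 * LL T + 2 * LL T * s) (9 * LL T + 2 * LL T * s)) ω)
          ∈ Cset F (u - v) (G T) (xy.1 s) t}
        ≤ (ENNReal.ofReal (1 - 1 / (2 * (G T : ℝ) ^ 8))) ^ (G T ^ 16)) := by
    intro T
    by_cases hT : 200 ≤ G T ∧ (1 - p / ((b : ℝ) + 1) ^ 2) ^ T ≤ 1 / (4 * (G T : ℝ) ^ 8) ∧
        Y T ^ c ≤ (G T : ℝ) ∧ 1 / κ ≤ (G T : ℝ)
    · obtain ⟨x, y, h1, h2⟩ := fixedT (P := P) hb hm hi hp hu hv hFc hF' (α := α) (γ := γ)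
        (G := G T) (T := T) (L := LL T) hT.1 hT.2.1 rfl (hψ T hT.1 hT.2.2.1 hT.2.2.2)
      exact ⟨(x, y), fun _ => ⟨h1, h2⟩⟩
    · exact ⟨(fun _ _ => 0, fun _ _ => 0), fun h => absurd h hT⟩
  choose xy hxy using hstep
  -- the bad events
  set Bt : ℕ → ℕ → Set Ω := fun T k => {ω | ∀ s < G T ^ 16,
    (wsum b ξ (Finset.range (7 * LL T + 2 * LL T * s)) ω,
        wsum b ξ (Finset.Ico (7 * LL T + 2 * LL T * s) (9 * LL T + 2 * LL T * s)) ω)
          ∈ Cset F (u - v) (G T) ((xy T).1 s) (k / (G T : ℝ) ^ 4)} with hBt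
  set Bad : ℕ → Set Ω := fun T => if (200 ≤ G T ∧
      (1 - p / ((b : ℝ) + 1) ^ 2) ^ T ≤ 1 / (4 * (G T : ℝ) ^ 8) ∧
      Y T ^ c ≤ (G T : ℝ) ∧ 1 / κ ≤ (G T : ℝ)) then ⋃ k ∈ Finset.range (G T ^ 4 + 1), Bt T k
      else ∅ with hBad
  have hBadP : ∀ T, P (Bad T) ≤ ENNReal.ofReal (4 / (G T : ℝ) ^ 4) := by
    intro T
    simp only [hBad]
    split_ifs with hT
    swap
    · rw [measure_empty]; exact bot_le
    have hG1 : (1 : ℝ) ≤ G T := by exact_mod_cast (by omega : 1 ≤ G T)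
    have hG0 : (0 : ℝ) < G T := by linarith
    set g : ℝ := (G T : ℝ) with hg
    have hx0 : 0 ≤ 1 - 1 / (2 * g ^ 8) := by
      rw [sub_nonneg, div_le_one (by positivity)]
      have : 1 ≤ g ^ 8 := one_le_pow₀ hG1
      linarith
    have h1 : (1 - 1 / (2 * g ^ 8)) ^ (G T ^ 16) ≤ 2 / g ^ 8 := by
      have h2 : 1 - 1 / (2 * g ^ 8) ≤ Real.exp (-(1 / (2 * g ^ 8))) := by
        have := Real.add_one_le_exp (-(1 / (2 * g ^ 8)))
        linarith
      calc (1 - 1 / (2 * g ^ 8)) ^ (G T ^ 16)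
          ≤ (Real.exp (-(1 / (2 * g ^ 8)))) ^ (G T ^ 16) := by gcongr
        _ = Real.exp (-(g ^ 8 / 2)) := by
            rw [← Real.exp_nat_mul]
            congr 1
            push_cast
            rw [← hg]
            field_simp
        _ ≤ 2 / g ^ 8 := by
            rw [Real.exp_neg, inv_le_comm₀ (Real.exp_pos _) (by positivity), inv_div]
            have := Real.add_one_le_exp (g ^ 8 / 2)
            linarith
    calc P (⋃ k ∈ Finset.range (G T ^ 4 + 1), Bt T k)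
        ≤ ∑ k ∈ Finset.range (G T ^ 4 + 1), P (Bt T k) := measure_biUnion_finset_le _ _
      _ ≤ ∑ k ∈ Finset.range (G T ^ 4 + 1), ENNReal.ofReal (2 / g ^ 8) := by
          apply Finset.sum_le_sum
          intro k _
          refine ((hxy T hT).2 _).trans ?_
          rw [← ENNReal.ofReal_pow hx0]
          exact ENNReal.ofReal_le_ofReal h1
      _ = ENNReal.ofReal (((G T ^ 4 + 1 : ℕ) : ℝ) * (2 / g ^ 8)) := by
          rw [Finset.sum_const, Finset.card_range, nsmul_eq_mul,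
            ENNReal.ofReal_mul (by positivity), ENNReal.ofReal_natCast]
      _ ≤ ENNReal.ofReal (4 / g ^ 4) := by
          apply ENNReal.ofReal_le_ofReal
          push_cast
          rw [← hg]
          have h3 : 1 ≤ g ^ 4 := one_le_pow₀ hG1
          calc (g ^ 4 + 1) * (2 / g ^ 8) ≤ (g ^ 4 + g ^ 4) * (2 / g ^ 8) := by gcongr
            _ = 4 / g ^ 4 := by field_simp; norm_num
  have hBC : ∀ᵐ ω ∂P, ∀ᶠ T in atTop, ω ∉ Bad T := by
    apply ae_eventually_notMem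
    refine ne_top_of_le_ne_top ?_ (ENNReal.tsum_le_tsum hBadP)
    exact hsum.tsum_ofReal_ne_top
  -- the pointwise argument
  filter_upwards [hBC] with ω hω hne t
  set X : E := pt b ξ ω with hX
  obtain ⟨C2, hC2, htay⟩ := taylor hF X
  have hlim : Tendsto (fun n => wsum b ξ (Finset.range n) ω) atTop (𝓝 X) :=
    tendsto_wsum hb hM ω
  set d0 : ℝ := |fderiv ℝ F X (u - v)| with hd0
  have hd0pos : 0 < d0 := abs_pos.2 hne
  set C3 : ℝ := ‖fderiv ℝ F X‖ + 1 with hC3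
  have hC3pos : 0 < C3 := by rw [hC3]; positivity
  have hcw : Continuous (fun a => |fderiv ℝ F a (u - v)|) := (hF'.clm_apply continuous_const).abs
  have hev : ∀ᶠ a in 𝓝 X, |F X - F a - fderiv ℝ F a (X - a)| ≤ C2 * ‖X - a‖ ^ 2 ∧
      d0 / 2 < |fderiv ℝ F a (u - v)| ∧ |fderiv ℝ F a (u - v)| < d0 + 1 ∧
      ‖fderiv ℝ F a‖ < C3 := by
    have e1 : ∀ᶠ a in 𝓝 X, d0 / 2 < |fderiv ℝ F a (u - v)| :=
      hcw.continuousAt.eventually_const_lt (by show d0 / 2 < d0; linarith)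
    have e2 : ∀ᶠ a in 𝓝 X, |fderiv ℝ F a (u - v)| < d0 + 1 :=
      hcw.continuousAt.eventually_lt_const (by show d0 < d0 + 1; linarith)
    have e3 : ∀ᶠ a in 𝓝 X, ‖fderiv ℝ F a‖ < C3 :=
      hF'.norm.continuousAt.eventually_lt_const (by
        show ‖fderiv ℝ F X‖ < C3
        rw [hC3]; linarith)
    filter_upwards [htay, e1, e2, e3] with a h1 h2 h3 h4
    exact ⟨h1, h2, h3, h4⟩
  obtain ⟨N1, hN1⟩ := eventually_atTop.1 (hlim.eventually hev)
  rw [frequently_atTop]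
  intro N0
  -- choose T
  have hTex : ∃ T, ω ∉ Bad T ∧ (200 ≤ G T ∧
      (1 - p / ((b : ℝ) + 1) ^ 2) ^ T ≤ 1 / (4 * (G T : ℝ) ^ 8) ∧
      Y T ^ c ≤ (G T : ℝ) ∧ 1 / κ ≤ (G T : ℝ)) ∧ (N0 : ℝ) ≤ G T ∧ (N1 : ℝ) ≤ G T ∧
      2 / d0 ≤ G T ∧ d0 + 1 ≤ G T ∧ C2 * M ^ 2 + C3 * M ≤ G T := by
    have := (hω.and (hgoodT.and ((hGt.eventually_ge_atTop N0).and
      ((hGt.eventually_ge_atTop N1).and ((hGt.eventually_ge_atTop (2 / d0)).and
      ((hGt.eventually_ge_atTop (d0 + 1)).and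
        (hGt.eventually_ge_atTop (C2 * M ^ 2 + C3 * M)))))))).exists
    obtain ⟨T, h1, h2, h3, h4, h5, h6, h7⟩ := this
    exact ⟨T, h1, h2, h3, h4, h5, h6, h7⟩
  obtain ⟨T, hωT, hT, hN0T, hN1T, hT1, hT2, hT3⟩ := hTex
  have hG1 : (1 : ℝ) ≤ G T := by exact_mod_cast (by omega : 1 ≤ G T)
  have hG0 : (0 : ℝ) < G T := by linarith
  set g : ℝ := (G T : ℝ) with hg
  set L := LL T with hLdef
  -- the target in the net
  set k : ℕ := ⌊Int.fract t * g ^ 4⌋₊ with hk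
  have hfr0 := Int.fract_nonneg t
  have hfr1 := Int.fract_lt_one t
  have hk1 : (k : ℝ) ≤ Int.fract t * g ^ 4 := Nat.floor_le (by positivity)
  have hk2 : Int.fract t * g ^ 4 < k + 1 := Nat.lt_floor_add_one _
  have hkmem : k ∈ Finset.range (G T ^ 4 + 1) := by
    rw [Finset.mem_range]
    have : (k : ℝ) ≤ g ^ 4 := by
      refine hk1.trans ?_
      have : 0 ≤ g ^ 4 := by positivity
      nlinarith
    have h2 : k ≤ G T ^ 4 := by
      rw [hg] at this
      exact_mod_cast this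
    omega
  have hknet : ∀ y : ℝ, nd (y - t) ≤ nd (y - k / g ^ 4) + 1 / g ^ 4 := by
    intro y
    have h1 : nd (y - t) = nd (y - Int.fract t) := by
      have : y - Int.fract t = (y - t) + (⌊t⌋ : ℤ) := by
        have := Int.fract_add_floor t
        linarith
      rw [this, nd_add_int]
    rw [h1]
    refine (nd_le_add_abs _ (y - k / g ^ 4)).trans ?_
    gcongr
    have h3 : y - Int.fract t - (y - k / g ^ 4) = -(Int.fract t - k / g ^ 4) := by ring
    rw [h3, abs_neg, abs_of_nonneg]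
    · rw [sub_le_iff_le_add, ← add_div, le_div_iff₀ (by positivity)]
      linarith
    · rw [sub_nonneg, div_le_iff₀ (by positivity)]
      exact hk1
  have hωk : ω ∉ Bt T k := by
    intro hmem
    apply hωT
    simp only [hBad]
    rw [if_pos hT]
    exact Set.mem_biUnion hkmem hmem
  simp only [hBt, Set.mem_ofPred_eq] at hωk
  push Not at hωk
  obtain ⟨s, hs, hsC⟩ := hωk
  -- the window
  set J := 8 * L + 2 * L * s with hJ
  have hLG : G T ≤ L := by
    rw [hLdef]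
    simp only [hLL]
    have h1 : G T ≤ G T ^ 10 := Nat.le_self_pow (by norm_num) _
    exact h1.trans (Nat.le_mul_of_pos_left _ (Nat.one_le_pow _ _ (by norm_num)))
  have hLG10 : G T ^ 10 ≤ L := by
    rw [hLdef]
    simp only [hLL]
    exact Nat.le_mul_of_pos_left _ (Nat.one_le_pow _ _ (by norm_num))
  have hJL : L ≤ J := by omega
  have eJ1 : 7 * L + 2 * L * s = J - L := by omega
  have eJ2 : 9 * L + 2 * L * s = J + L := by omega
  rw [eJ1, eJ2] at hsC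
  set a : E := wsum b ξ (Finset.range (J - L)) ω with ha
  set W : E := wsum b ξ (Finset.Ico (J - L) (J + L)) ω with hW
  have hN1J : N1 ≤ J - L := by
    have h1 : N1 ≤ G T := by rw [hg] at hN1T; exact_mod_cast hN1T
    omega
  obtain ⟨htaya, hda1, hda2, hda3⟩ := hN1 (J - L) hN1J
  rw [← ha] at htaya hda1 hda2 hda3
  have hsC' : ∃ i ≤ 2 * G T ^ 8,
      nd ((xy T).1 s i * (F a + fderiv ℝ F a W) - k / g ^ 4) < 1 / g ^ 4 := by
    by_contra hcon
    push Not at hcon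
    apply hsC
    refine ⟨?_, ?_, hcon⟩
    · have h1 : 2 / d0 ≤ g := hT1
      rw [div_le_iff₀ hd0pos] at h1
      show 1 / g ≤ |fderiv ℝ F a (u - v)|
      rw [div_le_iff₀ hG0]
      nlinarith
    · show |fderiv ℝ F a (u - v)| ≤ g
      linarith
  obtain ⟨i, hiR, hnear⟩ := hsC'
  obtain ⟨hx1, hx2, hx3⟩ := (hxy T hT).1 s hs i hiR
  set x : ℤ := (xy T).1 s i with hxdef
  set y : ℤ := (xy T).2 s i with hydef
  obtain ⟨-, hA12, hA6, hA1⟩ := params hb hT.1
  set A : ℝ := (b : ℝ) ^ (28 * G T ^ 9) with hA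
  have hA0 : 0 < A := by linarith
  have hbJ : 0 < (b : ℝ) ^ J := by positivity
  have hxpos : (0 : ℝ) < x := lt_of_lt_of_le (by positivity) hx1
  have hxposZ : 0 < x := by exact_mod_cast hxpos
  have hxnat : ((x.toNat : ℕ) : ℝ) = x := by
    have : ((x.toNat : ℕ) : ℤ) = x := Int.toNat_of_nonneg hxposZ.le
    exact_mod_cast this
  -- x is large
  have hxbig : (N0 : ℝ) ≤ x := by
    refine le_trans ?_ hx1
    rw [le_div_iff₀ hG0]
    have h1 : g ≤ (b : ℝ) ^ L := by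
      have h2 : G T < b ^ G T := Nat.lt_pow_self (by omega)
      have h3 : b ^ G T ≤ b ^ L := Nat.pow_le_pow_right (by omega) hLG
      have h4 : G T ≤ b ^ L := by omega
      rw [hg]
      exact_mod_cast h4
    calc (N0 : ℝ) * g ≤ g * g := by gcongr
      _ ≤ (b : ℝ) ^ L * (b : ℝ) ^ L := by gcongr
      _ = (b : ℝ) ^ (L + L) := by rw [pow_add]
      _ ≤ (b : ℝ) ^ J := pow_le_pow_right₀ hb1.le (by omega)
  refine ⟨x.toNat, by
    have : (N0 : ℤ) ≤ x := by exact_mod_cast hxbig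
    omega, ?_⟩
  rw [hxnat]
  -- the logarithm
  have hlogx0 : 0 ≤ Real.log x := by
    apply Real.log_nonneg
    have : (1 : ℤ) ≤ x := hxposZ
    exact_mod_cast this
  have hlogx : (Real.log x) ^ c ≤ g := by
    refine le_trans ?_ hT.2.2.1
    apply Real.rpow_le_rpow hlogx0 _ hc.le
    refine le_trans ?_ (hlogY T)
    have h1 : (x : ℝ) ≤ (b : ℝ) ^ (12 * LL T * G T ^ 16) := by
      refine hx2.trans ?_
      rw [hA, ← pow_add]
      apply pow_le_pow_right₀ hb1.le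
      have h2 : 28 * G T ^ 9 ≤ L := by
        refine le_trans ?_ hLG10
        have : G T ^ 10 = G T * G T ^ 9 := by ring
        rw [this]
        have := hT.1
        exact Nat.mul_le_mul_right _ (by omega)
      have h5 : 1 ≤ G T ^ 16 := Nat.one_le_pow _ _ (by omega)
      have h6 : L * s ≤ L * G T ^ 16 := Nat.mul_le_mul_left _ hs.le
      have h7 : L ≤ L * G T ^ 16 := Nat.le_mul_of_pos_right _ h5
      have e1 : 12 * LL T * G T ^ 16 = 12 * (L * G T ^ 16) := by rw [hLdef]; ring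
      have e2 : 2 * L * s = 2 * (L * s) := by ring
      rw [e1, e2]
      omega
    calc Real.log x ≤ Real.log ((b : ℝ) ^ (12 * LL T * G T ^ 16)) := Real.log_le_log hxpos h1
      _ = ((12 * LL T * G T ^ 16 : ℕ) : ℝ) * Real.log b := Real.log_pow _ _
      _ = 12 * LL T * G T ^ 16 * Real.log b := by push_cast; ring
  -- the error of the linearisation
  have herr : |(x : ℝ) * F X - x * (F a + fderiv ℝ F a W)| ≤ 1 / g ^ 4 := by
    have e1 : ‖X - a‖ ≤ M / (b : ℝ) ^ (J - L) := tail_le hb hM ω (J - L)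
    have e2 : ‖X - wsum b ξ (Finset.range (J + L)) ω‖ ≤ M / (b : ℝ) ^ (J + L) :=
      tail_le hb hM ω (J + L)
    have e3 : wsum b ξ (Finset.range (J + L)) ω = a + W := wsum_split b ξ (by omega) ω
    rw [e3] at e2
    have e4 : F X - (F a + fderiv ℝ F a W)
        = (F X - F a - fderiv ℝ F a (X - a)) + fderiv ℝ F a (X - (a + W)) := by
      have e0 : X - (a + W) = (X - a) - W := by abel
      have e01 : fderiv ℝ F a (X - (a + W)) = fderiv ℝ F a (X - a) - fderiv ℝ F a W := by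
        rw [e0, map_sub]
      rw [e01]
      ring
    have e5 : |F X - (F a + fderiv ℝ F a W)| ≤ C2 * (M / (b : ℝ) ^ (J - L)) ^ 2
        + C3 * (M / (b : ℝ) ^ (J + L)) := by
      rw [e4]
      refine (abs_add_le _ _).trans (add_le_add ?_ ?_)
      · refine htaya.trans ?_
        gcongr
      · rw [← Real.norm_eq_abs]
        refine ((fderiv ℝ F a).le_opNorm _).trans ?_
        gcongr
    rw [← mul_sub, abs_mul, abs_of_pos hxpos]
    -- powers of b
    have hp1 : (b : ℝ) ^ J / (b : ℝ) ^ (J - L) ^ 1 / (b : ℝ) ^ (J - L) ≤ 1 / (b : ℝ) ^ L := by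
      rw [pow_one, div_div, div_le_div_iff₀ (by positivity) (by positivity), one_mul, ← pow_add,
        ← pow_add]
      exact pow_le_pow_right₀ hb1.le (by omega)
    have hp20 : ∀ j : ℕ, (b : ℝ) ^ j / (b : ℝ) ^ (j + L) = 1 / (b : ℝ) ^ L := by
      intro j
      rw [pow_add]; field_simp
    have hp2 := hp20 J
    have hAL : A / (b : ℝ) ^ L * g ≤ 1 / g ^ 4 := by
      have h1 : 12 * A ^ 6 ≤ (b : ℝ) ^ L :=
        hA12.le.trans (pow_le_pow_right₀ hb1.le hLG10)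
      have h2 : A * A ≤ A ^ 6 := by
        calc A * A = A ^ 2 := by ring
          _ ≤ A ^ 6 := pow_le_pow_right₀ hA1 (by norm_num)
      have h3 : g ^ 5 ≤ A := by
        refine le_trans ?_ hA6
        rw [← hg]
        have h4 : g ^ 5 ≤ g ^ 6 := pow_le_pow_right₀ hG1 (by norm_num)
        have h5 : 0 ≤ g ^ 6 := by positivity
        linarith
      rw [div_mul_eq_mul_div, div_le_div_iff₀ (by positivity) (by positivity), one_mul]
      calc A * g * g ^ 4 = A * g ^ 5 := by ring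
        _ ≤ A * A := by gcongr
        _ ≤ (b : ℝ) ^ L := by
            have : 0 ≤ A ^ 6 := by positivity
            linarith
    calc (x : ℝ) * |F X - (F a + fderiv ℝ F a W)|
        ≤ (A * (b : ℝ) ^ J) * (C2 * (M / (b : ℝ) ^ (J - L)) ^ 2
          + C3 * (M / (b : ℝ) ^ (J + L))) := by gcongr
      _ = A * (C2 * M ^ 2) * ((b : ℝ) ^ J / (b : ℝ) ^ (J - L) ^ 1 / (b : ℝ) ^ (J - L))
          + A * (C3 * M) * ((b : ℝ) ^ J / (b : ℝ) ^ (J + L)) := by
          rw [pow_one]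
          field_simp
      _ ≤ A * (C2 * M ^ 2) * (1 / (b : ℝ) ^ L) + A * (C3 * M) * (1 / (b : ℝ) ^ L) := by
          rw [hp2]
          gcongr
      _ = A / (b : ℝ) ^ L * (C2 * M ^ 2 + C3 * M) := by ring
      _ ≤ A / (b : ℝ) ^ L * g := by gcongr
      _ ≤ 1 / g ^ 4 := hAL
  have hnd2 : nd ((x : ℝ) * F X - t) ≤ 3 / g ^ 4 := by
    have h1 := hknet ((x : ℝ) * F X)
    have h2 := nd_le_add_abs ((x : ℝ) * F X - k / g ^ 4)
      ((x : ℝ) * (F a + fderiv ℝ F a W) - k / g ^ 4)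
    have h3 : (x : ℝ) * F X - k / g ^ 4 - ((x : ℝ) * (F a + fderiv ℝ F a W) - k / g ^ 4)
        = (x : ℝ) * F X - x * (F a + fderiv ℝ F a W) := by ring
    rw [h3] at h2
    have h4 : 3 / g ^ 4 = 1 / g ^ 4 + 1 / g ^ 4 + 1 / g ^ 4 := by ring
    linarith
  have hnd1 : (x : ℝ) * nd (x * α - γ) ≤ 12 * g := by
    refine le_trans ?_ hx3
    gcongr
    have h1 := nd_le ((x : ℝ) * α - γ) y
    refine h1.trans (le_of_eq ?_)
    congr 1
    ring
  have hnn1 := nd_nonneg ((x : ℝ) * α - γ)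
  have hnn2 := nd_nonneg ((x : ℝ) * F X - t)
  have hlc : 0 ≤ (Real.log x) ^ c := Real.rpow_nonneg hlogx0 _
  calc (x : ℝ) * (Real.log x) ^ c * nd (x * α - γ) * nd (x * F X - t)
      = ((x : ℝ) * nd (x * α - γ)) * (Real.log x) ^ c * nd (x * F X - t) := by ring
    _ ≤ (12 * g) * g * (3 / g ^ 4) := by gcongr
    _ = 36 / g ^ 2 := by field_simp; norm_num
    _ < 1 := by
        rw [div_lt_one (by positivity)]
        have : (200 : ℝ) ≤ g := by rw [hg]; exact_mod_cast hT.1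
        nlinarith

end Pool.Agent.V7H27.LC
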